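import Pool.Agent.H78.Sched.Defs

namespace Pool.Agent.H78.Sched

variable {m : ℕ}

theorem load_append {I J : List (ℝ × ℝ)} {σ τ : List (Option (Fin m))}
    (h : I.length = σ.length) (i : Fin m) :
    load (I ++ J) (σ ++ τ) i = load I σ i + load J τ i := by
  unfold load
  rw [List.zipWith_append h, List.sum_append]

theorem penalty_append {I J : List (ℝ × ℝ)} {σ τ : List (Option (Fin m))}
    (h : I.length = σ.length) :
    penalty (I ++ J) (σ ++ τ) = penalty I σ + penalty J τ := by
  unfold penalty
  rw [List.zipWith_append h, List.sum_append]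

@[simp] theorem length_run (A : List (ℝ × ℝ) → Option (Fin m)) (I : List (ℝ × ℝ)) :
    (run A I).length = I.length := by simp [run]

theorem run_snoc (A : List (ℝ × ℝ) → Option (Fin m)) (I : List (ℝ × ℝ)) (j : ℝ × ℝ) :
    run A (I ++ [j]) = run A I ++ [A (I ++ [j])] := by
  unfold run
  rw [List.length_append, List.length_singleton, List.range_succ, List.map_append,
    List.map_singleton]
  congr 1
  · apply List.map_congr_left
    intro k hk
    rw [List.mem_range] at hk
    rw [List.take_append_of_le_length (by omega)]
  · rw [List.take_of_length_le (by simp)]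

theorem run_append (A : List (ℝ × ℝ) → Option (Fin m)) (I J : List (ℝ × ℝ)) :
    ∃ τ : List (Option (Fin m)), τ.length = J.length ∧ run A (I ++ J) = run A I ++ τ := by
  induction J using List.reverseRecOn with
  | nil => exact ⟨[], rfl, by simp⟩
  | append_singleton J j ih =>
    obtain ⟨τ, h1, h2⟩ := ih
    refine ⟨τ ++ [A (I ++ J ++ [j])], by simp [h1], ?_⟩
    rw [← List.append_assoc, run_snoc, h2, List.append_assoc]

theorem load_nonneg {I : List (ℝ × ℝ)} (hI : ∀ j ∈ I, 0 < j.1 ∧ 0 < j.2)
    (σ : List (Option (Fin m))) (i : Fin m) : 0 ≤ load I σ i := by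
  unfold load
  apply List.sum_nonneg
  intro x hx
  rw [List.mem_iff_getElem] at hx
  obtain ⟨n, hn, rfl⟩ := hx
  rw [List.getElem_zipWith]
  split_ifs
  · exact (hI _ (List.getElem_mem _)).1.le
  · exact le_rfl

theorem penalty_nonneg {I : List (ℝ × ℝ)} (hI : ∀ j ∈ I, 0 < j.1 ∧ 0 < j.2)
    (σ : List (Option (Fin m))) : 0 ≤ penalty I σ := by
  unfold penalty
  apply List.sum_nonneg
  intro x hx
  rw [List.mem_iff_getElem] at hx
  obtain ⟨n, hn, rfl⟩ := hx
  rw [List.getElem_zipWith]
  split_ifs
  · exact (hI _ (List.getElem_mem _)).2.le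
  · exact le_rfl

theorem cost_nonneg {I : List (ℝ × ℝ)} (hI : ∀ j ∈ I, 0 < j.1 ∧ 0 < j.2)
    (σ : List (Option (Fin m))) : 0 ≤ cost I σ :=
  add_nonneg (Real.iSup_nonneg (fun i => load_nonneg hI σ i)) (penalty_nonneg hI σ)

theorem opt_le {I : List (ℝ × ℝ)} (hI : ∀ j ∈ I, 0 < j.1 ∧ 0 < j.2)
    {σ : List (Option (Fin m))} (h : σ.length = I.length) : opt m I ≤ cost I σ := by
  apply csInf_le
  · refine ⟨0, ?_⟩
    rintro x ⟨τ, _, rfl⟩
    exact cost_nonneg hI τ
  · exact ⟨σ, h, rfl⟩

/-- The load is the number of jobs if all running times are one. -/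
theorem load_unit {I : List (ℝ × ℝ)} (hI : ∀ j ∈ I, j.1 = 1) {σ : List (Option (Fin m))}
    (h : σ.length = I.length) (i : Fin m) : load I σ i = σ.count (some i) := by
  induction I generalizing σ with
  | nil =>
    have : σ = [] := List.length_eq_zero_iff.1 h
    subst this
    simp [load]
  | cons j I ih =>
    cases σ with
    | nil => simp at h
    | cons d σ =>
      have h1 := ih (fun j hj => hI j (List.mem_cons_of_mem _ hj)) (σ := σ) (by simpa using h)
      have h2 : load (j :: I) (d :: σ) i = (if d = some i then j.1 else 0) + load I σ i := by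
        simp [load]
      rw [h2, h1, List.count_cons, hI j List.mem_cons_self]
      by_cases hd : d = some i
      · simp [hd, add_comm]
      · simp [hd]

/-- Counting the entries of an assignment. -/
theorem count_sum (σ : List (Option (Fin m))) :
    σ.count none + ∑ i : Fin m, σ.count (some i) = σ.length := by
  induction σ with
  | nil => simp
  | cons d σ ih =>
    rw [List.count_cons, List.length_cons]
    have : ∑ i : Fin m, (d :: σ).count (some i) =
        ∑ i : Fin m, σ.count (some i) + (if d = none then 0 else 1) := by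
      simp only [List.count_cons, Finset.sum_add_distrib]
      congr 1
      cases d with
      | none => simp
      | some k =>
        simp only [beq_iff_eq, Option.some.injEq, reduceCtorEq, if_false]
        rw [Finset.sum_ite_eq]
        simp
    rw [this]
    cases d with
    | none => simp; omega
    | some k => simp; omega

theorem bddAbove_load (I : List (ℝ × ℝ)) (σ : List (Option (Fin m))) :
    BddAbove (Set.range (fun i : Fin m => load I σ i)) := (Set.finite_range _).bddAbove

/-- If more than `s * m` unit jobs are accepted, the makespan is at least `s + 1`. -/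
theorem makespan_ge {I : List (ℝ × ℝ)} (hI : ∀ j ∈ I, j.1 = 1) {σ : List (Option (Fin m))}
    (h : σ.length = I.length) (s : ℕ) (hs : s * m + σ.count none < σ.length) :
    (s + 1 : ℝ) ≤ ⨆ i : Fin m, load I σ i := by
  have h1 := count_sum σ
  have h2 : ∃ i : Fin m, s + 1 ≤ σ.count (some i) := by
    by_contra hc
    push Not at hc
    have : ∑ i : Fin m, σ.count (some i) ≤ ∑ _i : Fin m, s :=
      Finset.sum_le_sum (fun i _ => by have := hc i; omega)
    rw [Finset.sum_const, Finset.card_univ, Fintype.card_fin, smul_eq_mul] at this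
    have h3 : m * s = s * m := mul_comm _ _
    omega
  obtain ⟨i, hi⟩ := h2
  refine le_trans ?_ (le_ciSup (bddAbove_load I σ) i)
  rw [load_unit hI h]
  exact_mod_cast hi

/-- If every machine gets at most one unit job, the makespan is at most one. -/
theorem makespan_le {I : List (ℝ × ℝ)} (hI : ∀ j ∈ I, j.1 = 1) {σ : List (Option (Fin m))}
    (h : σ.length = I.length) (hs : ∀ i : Fin m, σ.count (some i) ≤ 1) :
    ⨆ i : Fin m, load I σ i ≤ 1 := by
  apply Real.iSup_le _ zero_le_one
  intro i
  rw [load_unit hI h]
  exact_mod_cast hs i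

theorem penalty_of_all_some {I : List (ℝ × ℝ)} {σ : List (Option (Fin m))}
    (hs : ∀ d ∈ σ, d ≠ none) : penalty I σ = 0 := by
  unfold penalty
  apply List.sum_eq_zero
  intro x hx
  rw [List.mem_iff_getElem] at hx
  obtain ⟨n, hn, rfl⟩ := hx
  rw [List.getElem_zipWith]
  rw [if_neg]
  exact hs _ (List.getElem_mem _)

theorem penalty_of_all_none {I : List (ℝ × ℝ)} :
    penalty I (List.replicate I.length (none : Option (Fin m))) = (I.map (·.2)).sum := by
  induction I with
  | nil => simp [penalty]
  | cons j I ih =>
    simp only [List.length_cons, List.replicate_succ, List.map_cons, List.sum_cons]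
    rw [← ih]
    simp [penalty]

/-- Rejecting everything. -/
theorem opt_le_reject {I : List (ℝ × ℝ)} (hI : ∀ j ∈ I, 0 < j.1 ∧ 0 < j.2) :
    opt m I ≤ (I.map (·.2)).sum := by
  refine (opt_le (m := m) hI (σ := List.replicate I.length none) (by simp)).trans ?_
  unfold cost
  rw [penalty_of_all_none]
  have : ⨆ i : Fin m, load I (List.replicate I.length none) i ≤ 0 := by
    apply Real.iSup_le _ le_rfl
    intro i
    unfold load
    apply le_of_eq
    apply List.sum_eq_zero
    intro x hx
    rw [List.mem_iff_getElem] at hx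
    obtain ⟨n, hn, rfl⟩ := hx
    rw [List.getElem_zipWith]
    simp
  linarith

end Pool.Agent.H78.Sched
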