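import Mathlib

/-!
Online scheduling with rejection on `m` identical machines. A job is a pair
`(running time, penalty)` of real numbers. An input is a list of jobs. An assignment of an input
is a list of the same length, whose entry for a job is `none` (reject the job) or `some i` (run it
on machine `i`).
-/

namespace Pool.Agent.H78.Sched

/-- The load of machine `i`: the sum of the running times of the jobs assigned to it. -/
def load {m : ℕ} (I : List (ℝ × ℝ)) (σ : List (Option (Fin m))) (i : Fin m) : ℝ :=
  (List.zipWith (fun j d => if d = some i then j.1 else 0) I σ).sum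

/-- The sum of the penalties of the rejected jobs. -/
def penalty {m : ℕ} (I : List (ℝ × ℝ)) (σ : List (Option (Fin m))) : ℝ :=
  (List.zipWith (fun j d => if d = none then j.2 else 0) I σ).sum

/-- The cost: the makespan plus the penalties of the rejected jobs. -/
noncomputable def cost {m : ℕ} (I : List (ℝ × ℝ)) (σ : List (Option (Fin m))) : ℝ :=
  (⨆ i : Fin m, load I σ i) + penalty I σ

/-- The offline optimum: the least cost of an assignment. -/
noncomputable def opt (m : ℕ) (I : List (ℝ × ℝ)) : ℝ :=
  sInf {x | ∃ σ : List (Option (Fin m)), σ.length = I.length ∧ x = cost I σ}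

/-- The assignment made by a deterministic online algorithm `A`: the decision on the `k`-th job
is `A` applied to the list of the first `k` jobs (the last of them is the `k`-th job itself). -/
def run {m : ℕ} (A : List (ℝ × ℝ) → Option (Fin m)) (I : List (ℝ × ℝ)) :
    List (Option (Fin m)) :=
  (List.range I.length).map (fun k => A (I.take (k + 1)))

/-- `A` is `c`-competitive: its cost is at most `c` times the optimum on every input whose jobs
have positive running times and penalties. -/
def Competitive (m : ℕ) (A : List (ℝ × ℝ) → Option (Fin m)) (c : ℝ) : Prop :=
  ∀ I : List (ℝ × ℝ), (∀ j ∈ I, 0 < j.1 ∧ 0 < j.2) → cost I (run A I) ≤ c * opt m I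

/-- The optimal competitive ratio `R(m)`. -/
noncomputable def R (m : ℕ) : ℝ :=
  sInf {c | ∃ A : List (ℝ × ℝ) → Option (Fin m), Competitive m A c}

end Pool.Agent.H78.Sched
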