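import Pool.Agent.H78.Sched.Basic

/-!
A competitive algorithm exists for every `m ≥ 1` (so the infimum defining `R m` is over a
nonempty set).
-/

namespace Pool.Agent.H78.Sched

variable {m : ℕ}

/-- A memoryless algorithm. -/
def memoryless (d : ℝ × ℝ → Option (Fin m)) (L : List (ℝ × ℝ)) : Option (Fin m) :=
  L.getLast?.bind d

theorem run_memoryless (d : ℝ × ℝ → Option (Fin m)) (I : List (ℝ × ℝ)) :
    run (memoryless d) I = I.map d := by
  induction I using List.reverseRecOn with
  | nil => simp [run]
  | append_singleton I j ih =>
    rw [run_snoc, ih, List.map_append, List.map_singleton]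
    simp [memoryless]

/-- The sum of the loads is the total running time of the accepted jobs. -/
theorem sum_load (I : List (ℝ × ℝ)) (σ : List (Option (Fin m))) :
    ∑ i : Fin m, load I σ i =
      (List.zipWith (fun (j : ℝ × ℝ) (d : Option (Fin m)) => if d = none then 0 else j.1) I σ).sum := by
  induction I generalizing σ with
  | nil => simp [load]
  | cons j I ih =>
    cases σ with
    | nil => simp [load]
    | cons d σ =>
      have h2 : ∀ i, load (j :: I) (d :: σ) i = (if d = some i then j.1 else 0) + load I σ i := by
        intro i; simp [load]
      simp only [h2, Finset.sum_add_distrib, ih σ, List.zipWith_cons_cons, List.sum_cons]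
      congr 1
      cases d with
      | none => simp
      | some k => simp

/-- A lower bound for the cost. -/
noncomputable def low (m : ℕ) (I : List (ℝ × ℝ)) : ℝ :=
  (I.map (fun j : ℝ × ℝ => (min j.2 (j.1 / (m : ℝ)) : ℝ))).sum

theorem low_nil (m : ℕ) : low m [] = 0 := by simp [low]

theorem low_cons (m : ℕ) (j : ℝ × ℝ) (I : List (ℝ × ℝ)) :
    low m (j :: I) = min j.2 (j.1 / (m : ℝ)) + low m I := by simp [low]

theorem low_le (hm : 0 < m) (I : List (ℝ × ℝ)) (σ : List (Option (Fin m)))
    (h : σ.length = I.length) :
    low m I ≤ (∑ i : Fin m, load I σ i) / m + penalty I σ := by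
  rw [sum_load]
  unfold penalty
  induction I generalizing σ with
  | nil => simp [low_nil]
  | cons j I ih =>
    cases σ with
    | nil => simp at h
    | cons d σ =>
      have h3 := ih σ (by simpa using h)
      rw [low_cons]
      simp only [List.sum_cons, List.zipWith_cons_cons]
      rw [add_div]
      cases d with
      | none =>
        simp only [if_true]
        have := min_le_left j.2 (j.1 / m)
        rw [zero_div]
        linarith
      | some i =>
        simp only [reduceCtorEq, if_false]
        have := min_le_right j.2 (j.1 / m)
        linarith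

theorem cost_ge (hm : 0 < m) (I : List (ℝ × ℝ)) (σ : List (Option (Fin m)))
    (h : σ.length = I.length) : low m I ≤ cost I σ := by
  have hm0 : (0 : ℝ) < m := by exact_mod_cast hm
  have : Nonempty (Fin m) := ⟨⟨0, hm⟩⟩
  have h1 : (∑ i : Fin m, load I σ i) / m ≤ ⨆ i : Fin m, load I σ i := by
    rw [div_le_iff₀ hm0]
    have : ∑ i : Fin m, load I σ i ≤ ∑ _i : Fin m, ⨆ i' : Fin m, load I σ i' :=
      Finset.sum_le_sum (fun i _ => le_ciSup (bddAbove_load I σ) i)
    rw [Finset.sum_const, Finset.card_univ, Fintype.card_fin, nsmul_eq_mul] at this
    linarith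
  have h2 := low_le hm I σ h
  unfold cost
  linarith

/-- The algorithm: accept (on a fixed machine) if the penalty is larger than `t / m`. -/
theorem exists_competitive (hm : 0 < m) :
    ∃ A : List (ℝ × ℝ) → Option (Fin m), Competitive m A m := by
  classical
  have hm0 : (0 : ℝ) < m := by exact_mod_cast hm
  have hm1 : (1 : ℝ) ≤ m := by exact_mod_cast hm
  set i0 : Fin m := ⟨0, hm⟩ with hi0
  have : Nonempty (Fin m) := ⟨i0⟩
  obtain ⟨d, hd⟩ : ∃ d : ℝ × ℝ → Option (Fin m),
      ∀ j, d j = if j.1 / m < j.2 then some i0 else none := ⟨_, fun _ => rfl⟩
  refine ⟨memoryless d, fun I hI => ?_⟩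
  rw [run_memoryless]
  have h1 : cost I (I.map d) ≤ m * low m I := by
    have h2 : ∀ i : Fin m, load I (I.map d) i ≤ load I (I.map d) i0 := by
      intro i
      by_cases hi : i = i0
      · rw [hi]
      · have : load I (I.map d) i = 0 := by
          unfold load
          apply List.sum_eq_zero
          intro x hx
          rw [List.mem_iff_getElem] at hx
          obtain ⟨n, hn, rfl⟩ := hx
          rw [List.getElem_zipWith, List.getElem_map, if_neg]
          intro h
          rw [hd] at h
          split_ifs at h
          exact hi (Option.some_injective _ h).symm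
        rw [this]
        exact load_nonneg hI _ _
    have h3 : ⨆ i : Fin m, load I (I.map d) i ≤ load I (I.map d) i0 := ciSup_le h2
    have h4 : load I (I.map d) i0 + penalty I (I.map d) ≤ m * low m I := by
      clear h2 h3
      induction I with
      | nil => simp [load, penalty, low]
      | cons j I ih =>
        have h5 := ih (fun j hj => hI j (List.mem_cons_of_mem _ hj))
        have h6 := hI j List.mem_cons_self
        rw [low_cons]
        unfold load penalty at h5 ⊢
        simp only [List.map_cons, List.zipWith_cons_cons, List.sum_cons]
        rw [mul_add]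
        have h7 : (if d j = some i0 then j.1 else 0) + (if d j = none then j.2 else 0) ≤
            m * min j.2 (j.1 / m) := by
          by_cases hc : j.1 / m < j.2
          · have e : d j = some i0 := by rw [hd, if_pos hc]
            rw [e, if_pos rfl, if_neg (by simp), add_zero, min_eq_right hc.le]
            rw [mul_div_cancel₀ _ hm0.ne']
          · have e : d j = none := by rw [hd, if_neg hc]
            rw [e, if_neg (by simp), if_pos rfl, zero_add]
            push Not at hc
            rw [min_eq_left hc]
            nlinarith [h6.2]
        linarith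
    unfold cost
    linarith
  refine h1.trans ?_
  apply mul_le_mul_of_nonneg_left _ hm0.le
  unfold opt
  apply le_csInf
  · exact ⟨_, List.replicate I.length none, by simp, rfl⟩
  · rintro x ⟨σ, hσ, rfl⟩
    exact cost_ge hm I σ hσ

end Pool.Agent.H78.Sched
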