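import Pool.Agent.H78.Sched.Defs

/-!
The restricted model in which all running times are one.
-/

namespace Pool.Agent.H78.Sched

/-- `A` is `c`-competitive for unit running times: its cost is at most `c` times the optimum on
every input whose jobs have running time one and positive penalties. -/
def UnitCompetitive (m : ℕ) (A : List (ℝ × ℝ) → Option (Fin m)) (c : ℝ) : Prop :=
  ∀ I : List (ℝ × ℝ), (∀ j ∈ I, j.1 = 1 ∧ 0 < j.2) → cost I (run A I) ≤ c * opt m I

/-- The optimal competitive ratio for unit running times. -/
noncomputable def unitR (m : ℕ) : ℝ :=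
  sInf {c | ∃ A : List (ℝ × ℝ) → Option (Fin m), UnitCompetitive m A c}

end Pool.Agent.H78.Sched
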