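import Pool.Agent.H78.Sched.Basic
import Pool.Agent.H78.Sched.UDefs

namespace Pool.Agent.H78.Sched

variable {m : ℕ}

/-- Number of rejected jobs. -/
def rc (A : List (ℝ × ℝ) → Option (Fin m)) (L : List (ℝ × ℝ)) : ℕ := (run A L).count none

/-- Sum of the penalties of the rejected jobs. -/
def rx (A : List (ℝ × ℝ) → Option (Fin m)) (L : List (ℝ × ℝ)) : ℝ := penalty L (run A L)

theorem rc_nil (A : List (ℝ × ℝ) → Option (Fin m)) : rc A [] = 0 := by simp [rc, run]
theorem rx_nil (A : List (ℝ × ℝ) → Option (Fin m)) : rx A [] = 0 := by simp [rx, run, penalty]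

theorem rc_snoc (A : List (ℝ × ℝ) → Option (Fin m)) (L : List (ℝ × ℝ)) (j : ℝ × ℝ) :
    rc A (L ++ [j]) = rc A L + if A (L ++ [j]) = none then 1 else 0 := by
  unfold rc
  rw [run_snoc, List.count_append]
  congr 1
  by_cases h : A (L ++ [j]) = none
  · simp [h]
  · simp [h]

theorem rx_snoc (A : List (ℝ × ℝ) → Option (Fin m)) (L : List (ℝ × ℝ)) (j : ℝ × ℝ) :
    rx A (L ++ [j]) = rx A L + if A (L ++ [j]) = none then j.2 else 0 := by
  unfold rx
  rw [run_snoc, penalty_append (by simp)]
  congr 1
  simp [penalty]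

/-- Jobs with unit running time and positive penalty. -/
def UnitJobs (L : List (ℝ × ℝ)) : Prop := ∀ j ∈ L, j.1 = 1 ∧ 0 < j.2

theorem UnitJobs.pos {L : List (ℝ × ℝ)} (h : UnitJobs L) : ∀ j ∈ L, 0 < j.1 ∧ 0 < j.2 :=
  fun j hj => ⟨by rw [(h j hj).1]; exact one_pos, (h j hj).2⟩

theorem UnitJobs.one {L : List (ℝ × ℝ)} (h : UnitJobs L) : ∀ j ∈ L, j.1 = 1 :=
  fun j hj => (h j hj).1

theorem UnitJobs.append {L L' : List (ℝ × ℝ)} (h : UnitJobs L) (h' : UnitJobs L') :
    UnitJobs (L ++ L') := by
  intro j hj
  rw [List.mem_append] at hj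
  exact hj.elim (h j) (h' j)

theorem unitJobs_replicate (n : ℕ) {p : ℝ} (hp : 0 < p) :
    UnitJobs (List.replicate n ((1 : ℝ), p)) := by
  intro j hj
  rw [List.mem_replicate] at hj
  rw [hj.2]
  exact ⟨rfl, hp⟩

theorem UnitJobs.nil : UnitJobs [] := fun j hj => absurd hj (by simp)

theorem rx_nonneg {A : List (ℝ × ℝ) → Option (Fin m)} {L : List (ℝ × ℝ)} (h : UnitJobs L) :
    0 ≤ rx A L := penalty_nonneg h.pos _

/-- If some job of a constant list is rejected, its penalty is paid. -/
theorem penalty_replicate_ge {F : ℕ} {P : ℝ} (hP : 0 ≤ P) {τ : List (Option (Fin m))}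
    (hτ : τ.length = F) (h : none ∈ τ) : P ≤ penalty (List.replicate F ((1 : ℝ), P)) τ := by
  induction τ generalizing F with
  | nil => simp at h
  | cons d τ ih =>
    obtain ⟨F, rfl⟩ : ∃ F', F = F' + 1 := ⟨τ.length, by simpa using hτ.symm⟩
    have hτ' : τ.length = F := by simpa using hτ
    have hsplit : penalty (List.replicate (F + 1) ((1 : ℝ), P)) (d :: τ) =
        (if d = none then P else 0) + penalty (List.replicate F ((1 : ℝ), P)) τ := by
      simp [penalty, List.replicate_succ]
    have hnn : 0 ≤ penalty (List.replicate F ((1 : ℝ), P)) τ := by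
      unfold penalty
      apply List.sum_nonneg
      intro x hx
      rw [List.mem_iff_getElem] at hx
      obtain ⟨n, hn, rfl⟩ := hx
      rw [List.getElem_zipWith]
      split_ifs
      · simpa using hP
      · exact le_rfl
    rw [hsplit]
    by_cases hd : d = none
    · rw [if_pos hd]; linarith
    · rw [if_neg hd, zero_add]
      apply ih hτ'
      rw [List.mem_cons] at h
      exact h.resolve_left (fun e => hd e.symm)

theorem opt_nonneg {I : List (ℝ × ℝ)} (hI : ∀ j ∈ I, 0 < j.1 ∧ 0 < j.2) : 0 ≤ opt m I := by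
  apply Real.sInf_nonneg
  rintro x ⟨σ, _, rfl⟩
  exact cost_nonneg hI σ

section
variable {A : List (ℝ × ℝ) → Option (Fin m)} {r : ℝ}

theorem UnitCompetitive.nonneg (hA : UnitCompetitive m A r) : 0 ≤ r := by
  by_contra hr
  push Not at hr
  have hI : ∀ j ∈ [((1 : ℝ), (1 : ℝ))], 0 < j.1 ∧ 0 < j.2 := by
    intro j hj; rw [List.mem_singleton] at hj; rw [hj]; exact ⟨one_pos, one_pos⟩
  have h1 := hA [(1, 1)] (by intro j hj; rw [List.mem_singleton] at hj; rw [hj]; exact ⟨rfl, one_pos⟩)
  have h2 : 0 ≤ opt m [((1 : ℝ), (1 : ℝ))] := opt_nonneg hI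
  have h3 : cost [((1 : ℝ), (1 : ℝ))] (run A [(1, 1)]) ≤ 0 :=
    h1.trans (mul_nonpos_of_nonpos_of_nonneg hr.le h2)
  have h4 : 0 < cost [((1 : ℝ), (1 : ℝ))] (run A [(1, 1)]) := by
    have hrun : run A [((1 : ℝ), (1 : ℝ))] = [A [(1, 1)]] := by simp [run]
    unfold cost
    rw [hrun]
    cases hd : A [((1 : ℝ), (1 : ℝ))] with
    | none =>
      have : penalty [((1 : ℝ), (1 : ℝ))] [(none : Option (Fin m))] = 1 := by simp [penalty]
      rw [this]
      have : 0 ≤ ⨆ i : Fin m, load [((1 : ℝ), (1 : ℝ))] [(none : Option (Fin m))] i :=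
        Real.iSup_nonneg (fun i => load_nonneg hI _ i)
      linarith
    | some i =>
      have h6 : 0 ≤ penalty [((1 : ℝ), (1 : ℝ))] [some i] := penalty_nonneg hI _
      have h7 : load [((1 : ℝ), (1 : ℝ))] [some i] i ≤
          ⨆ i' : Fin m, load [((1 : ℝ), (1 : ℝ))] [some i] i' :=
        le_ciSup (bddAbove_load _ _) i
      have h8 : load [((1 : ℝ), (1 : ℝ))] [some i] i = 1 := by simp [load]
      linarith
  linarith

/-- One more job with a huge penalty: the penalties paid so far are bounded. -/
theorem one_more (hA : UnitCompetitive m A r) {L : List (ℝ × ℝ)} (hL : UnitJobs L)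
    (hlen : L.length + 1 ≤ m) : 1 + rx A L ≤ r := by
  have hr := hA.nonneg
  set P : ℝ := r + 1 with hP
  have hP0 : 0 < P := by linarith
  have hI : UnitJobs (L ++ [((1 : ℝ), P)]) := hL.append (by
    intro j hj; rw [List.mem_singleton] at hj; rw [hj]; exact ⟨rfl, hP0⟩)
  have hcost := hA _ hI
  -- the optimum is at most one
  have hopt : opt m (L ++ [((1 : ℝ), P)]) ≤ 1 := by
    set σ : List (Option (Fin m)) := ((List.finRange m).map some).take (L.length + 1) with hσ
    have hσl : σ.length = (L ++ [((1 : ℝ), P)]).length := by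
      rw [hσ]; simp; omega
    refine (opt_le hI.pos hσl).trans ?_
    unfold cost
    rw [penalty_of_all_some (by
      intro d hd
      have := List.mem_of_mem_take hd
      rw [List.mem_map] at this
      obtain ⟨i, _, rfl⟩ := this
      simp)]
    rw [add_zero]
    apply makespan_le hI.one hσl
    intro i
    have h1 : ((List.finRange m).map some).Nodup :=
      (List.nodup_finRange m).map (Option.some_injective _)
    exact List.nodup_iff_count_le_one.1 (h1.sublist (List.take_sublist _ _)) _
  have h1 : cost (L ++ [((1 : ℝ), P)]) (run A (L ++ [(1, P)])) ≤ r :=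
    hcost.trans (by nlinarith)
  have hxn := rx_nonneg (A := A) hL
  unfold cost at h1
  have hms : 0 ≤ ⨆ i : Fin m, load (L ++ [((1 : ℝ), P)]) (run A (L ++ [(1, P)])) i :=
    Real.iSup_nonneg (fun i => load_nonneg hI.pos _ i)
  have hrx := rx_snoc A L ((1 : ℝ), P)
  unfold rx at hrx hxn ⊢
  by_cases hd : A (L ++ [((1 : ℝ), P)]) = none
  · rw [hrx, if_pos hd] at h1
    simp only at h1
    linarith
  · rw [hrx, if_neg hd, add_zero] at h1
    have hcnt := rc_snoc A L ((1 : ℝ), P)
    rw [if_neg hd, add_zero] at hcnt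
    have hle : rc A L ≤ L.length := by
      unfold rc
      have := List.count_le_length (a := (none : Option (Fin m))) (l := run A L)
      rwa [length_run] at this
    have h2 := makespan_ge hI.one (σ := run A (L ++ [((1 : ℝ), P)])) (by simp) 0 (by
      have : (run A (L ++ [((1 : ℝ), P)])).count none = rc A L := hcnt
      rw [this]; simp; omega)
    simp only [Nat.cast_zero, zero_add] at h2
    linarith

/-- The final blow. -/
theorem final_blow (hA : UnitCompetitive m A r) {L1 L2 : List (ℝ × ℝ)} (hL1 : UnitJobs L1)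
    (hL2 : UnitJobs L2) (hlen : L1.length + L2.length ≤ m)
    (hcard : L2.length = rc A (L1 ++ L2) + 1) :
    2 + rx A (L1 ++ L2) ≤ r * (1 + (L2.map (·.2)).sum) := by
  have hr := hA.nonneg
  set S : ℝ := (L2.map (·.2)).sum with hS
  have hS0 : 0 ≤ S := by
    apply List.sum_nonneg
    intro x hx
    rw [List.mem_map] at hx
    obtain ⟨j, hj, rfl⟩ := hx
    exact (hL2 j hj).2.le
  set P : ℝ := r * (1 + S) + 1 with hP
  have hP0 : 0 < P := by positivity
  set F : ℕ := m - L1.length with hF
  set I : List (ℝ × ℝ) := (L1 ++ L2) ++ List.replicate F ((1 : ℝ), P) with hIdef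
  have hI : UnitJobs I := (hL1.append hL2).append (unitJobs_replicate F hP0)
  have hcost := hA _ hI
  have hopt : opt m I ≤ 1 + S := by
    set ρ : List (Option (Fin m)) := (List.finRange m).map some with hρ
    have hρl : ρ.length = m := by rw [hρ]; simp
    set σ : List (Option (Fin m)) := (ρ.take L1.length ++ List.replicate L2.length none) ++
      ρ.drop L1.length with hσ
    have hσl : σ.length = I.length := by
      rw [hσ, hIdef]
      simp only [List.length_append, List.length_take, List.length_replicate, List.length_drop,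
        hρl, hF]
      omega
    refine (opt_le hI.pos hσl).trans ?_
    unfold cost
    have hpen : penalty I σ = S := by
      rw [hIdef, hσ, penalty_append (by simp [hρl]; omega), penalty_append (by simp [hρl]; omega),
        penalty_of_all_none]
      rw [penalty_of_all_some, penalty_of_all_some]
      · simp [hS]
      · intro d hd
        have := List.mem_of_mem_drop hd
        rw [hρ, List.mem_map] at this
        obtain ⟨i, _, rfl⟩ := this
        simp
      · intro d hd
        have := List.mem_of_mem_take hd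
        rw [hρ, List.mem_map] at this
        obtain ⟨i, _, rfl⟩ := this
        simp
    rw [hpen]
    have : ⨆ i : Fin m, load I σ i ≤ 1 := by
      apply makespan_le hI.one hσl
      intro i
      rw [hσ, List.count_append, List.count_append]
      have h1 : (List.replicate L2.length (none : Option (Fin m))).count (some i) = 0 := by
        rw [List.count_replicate]; simp
      rw [h1, add_zero, ← List.count_append, List.take_append_drop]
      have h2 : ρ.Nodup := (List.nodup_finRange m).map (Option.some_injective _)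
      exact List.nodup_iff_count_le_one.1 h2 _
    linarith
  have h1 : cost I (run A I) ≤ r * (1 + S) :=
    hcost.trans (mul_le_mul_of_nonneg_left hopt hr)
  obtain ⟨τ, hτl, hτ⟩ := run_append A (L1 ++ L2) (List.replicate F ((1 : ℝ), P))
  rw [List.length_replicate] at hτl
  rw [← hIdef] at hτ
  have hpen : penalty I (run A I) = rx A (L1 ++ L2) +
      penalty (List.replicate F ((1 : ℝ), P)) τ := by
    rw [hτ, hIdef, penalty_append (by simp)]
    rfl
  have hms : 0 ≤ ⨆ i : Fin m, load I (run A I) i :=
    Real.iSup_nonneg (fun i => load_nonneg hI.pos _ i)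
  have hxn := rx_nonneg (A := A) (hL1.append hL2)
  unfold cost at h1
  rw [hpen] at h1
  by_cases hn : none ∈ τ
  · have := penalty_replicate_ge hP0.le hτl hn
    linarith
  · have hcn : τ.count none = 0 := List.count_eq_zero_of_not_mem hn
    have hp0 : 0 ≤ penalty (List.replicate F ((1 : ℝ), P)) τ :=
      penalty_nonneg (unitJobs_replicate F hP0).pos _
    have h2 := makespan_ge hI.one (σ := run A I) (by simp) 1 (by
      have h3 : (run A I).count none = rc A (L1 ++ L2) := by
        rw [hτ, List.count_append, hcn]; rfl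
      rw [h3, length_run, hIdef]
      simp only [List.length_append, List.length_replicate, hF]
      omega)
    norm_num at h2
    linarith

/-- When everything was rejected so far, accepting the next job is expensive. -/
theorem accept_first (hA : UnitCompetitive m A r) {L : List (ℝ × ℝ)} (hL : UnitJobs L)
    (hrej : rc A L = L.length) (hrx : rx A L = (L.map (·.2)).sum) {p : ℝ} (hp : 0 < p)
    (hacc : A (L ++ [(1, p)]) ≠ none) : 1 + rx A L ≤ r * (rx A L + p) := by
  have hr := hA.nonneg
  have hI : UnitJobs (L ++ [((1 : ℝ), p)]) := hL.append (by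
    intro j hj; rw [List.mem_singleton] at hj; rw [hj]; exact ⟨rfl, hp⟩)
  have hcost := hA _ hI
  have hopt := opt_le_reject (m := m) hI.pos
  rw [List.map_append, List.sum_append, ← hrx] at hopt
  simp only [List.map_cons, List.map_nil, List.sum_cons, List.sum_nil, add_zero] at hopt
  have h1 := hcost.trans (mul_le_mul_of_nonneg_left hopt hr)
  unfold cost at h1
  have hrx' := rx_snoc A L ((1 : ℝ), p)
  rw [if_neg hacc, add_zero] at hrx'
  have hcnt := rc_snoc A L ((1 : ℝ), p)
  rw [if_neg hacc, add_zero] at hcnt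
  have h2 := makespan_ge hI.one (σ := run A (L ++ [((1 : ℝ), p)])) (by simp) 0 (by
    have : (run A (L ++ [((1 : ℝ), p)])).count none = rc A L := hcnt
    rw [this, hrej]; simp)
  simp only [Nat.cast_zero, zero_add] at h2
  have h3 : penalty (L ++ [((1 : ℝ), p)]) (run A (L ++ [(1, p)])) = rx A L := hrx'
  rw [h3] at h1
  linarith

end

end Pool.Agent.H78.Sched
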