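import Mathlib

/-!
Growth of the sum of the rejected penalties for the threshold rule. All statements are about a
list `rej` of real numbers (the penalties of the rejected jobs).
-/

namespace Pool.Agent.H78.Sched

/-- `∑ min (z, u)`. -/
noncomputable def fs (rej : List ℝ) (u : ℝ) : ℝ := (rej.map (fun z => min z u)).sum

/-- Sum of the entries less than `u`. -/
noncomputable def sm (rej : List ℝ) (u : ℝ) : ℝ := (rej.map (fun z => if z < u then z else 0)).sum

/-- Number of entries that are at least `u`. -/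
noncomputable def nb (rej : List ℝ) (u : ℝ) : ℕ := (rej.map (fun z => if u ≤ z then 1 else 0)).sum

@[simp] theorem fs_nil (u : ℝ) : fs [] u = 0 := by simp [fs]
@[simp] theorem fs_cons (z : ℝ) (rej : List ℝ) (u : ℝ) : fs (z :: rej) u = min z u + fs rej u := by
  simp [fs]
@[simp] theorem sm_nil (u : ℝ) : sm [] u = 0 := by simp [sm]
@[simp] theorem sm_cons (z : ℝ) (rej : List ℝ) (u : ℝ) :
    sm (z :: rej) u = (if z < u then z else 0) + sm rej u := by simp [sm]
@[simp] theorem nb_nil (u : ℝ) : nb [] u = 0 := by simp [nb]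
@[simp] theorem nb_cons (z : ℝ) (rej : List ℝ) (u : ℝ) :
    nb (z :: rej) u = (if u ≤ z then 1 else 0) + nb rej u := by simp [nb]

/-- All entries are positive. -/
def Pos (rej : List ℝ) : Prop := ∀ z ∈ rej, 0 < z

theorem Pos.tail {z : ℝ} {rej : List ℝ} (h : Pos (z :: rej)) : Pos rej :=
  fun x hx => h x (List.mem_cons_of_mem _ hx)

theorem Pos.head {z : ℝ} {rej : List ℝ} (h : Pos (z :: rej)) : 0 < z := h z List.mem_cons_self

theorem fs_nonneg {rej : List ℝ} (h : Pos rej) {u : ℝ} (hu : 0 ≤ u) : 0 ≤ fs rej u := by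
  induction rej with
  | nil => simp
  | cons z rej ih =>
    rw [fs_cons]
    have := ih h.tail
    have := le_min h.head.le hu
    linarith

theorem sm_nonneg {rej : List ℝ} (h : Pos rej) (u : ℝ) : 0 ≤ sm rej u := by
  induction rej with
  | nil => simp
  | cons z rej ih =>
    rw [sm_cons]
    have := ih h.tail
    have := h.head
    split_ifs <;> linarith

theorem sum_nonneg' {rej : List ℝ} (h : Pos rej) : 0 ≤ rej.sum := List.sum_nonneg (fun x hx => (h x hx).le)

theorem fs_mono (rej : List ℝ) {u v : ℝ} (h : u ≤ v) : fs rej u ≤ fs rej v := by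
  induction rej with
  | nil => simp
  | cons z rej ih =>
    rw [fs_cons, fs_cons]
    have := min_le_min_left z h
    linarith

theorem fs_le_sum (rej : List ℝ) (u : ℝ) : fs rej u ≤ rej.sum := by
  induction rej with
  | nil => simp
  | cons z rej ih =>
    rw [fs_cons, List.sum_cons]
    have := min_le_left z u
    linarith

/-- Concavity. -/
theorem fs_scale {rej : List ℝ} (h : Pos rej) {u v : ℝ} (hu : 0 < u) (huv : u ≤ v) :
    u * fs rej v ≤ v * fs rej u := by
  induction rej with
  | nil => simp
  | cons z rej ih =>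
    rw [fs_cons, fs_cons]
    have h1 := ih h.tail
    have h2 : u * min z v ≤ v * min z u := by
      have hz := h.head
      rcases le_total z u with hzu | hzu
      · rw [min_eq_left hzu, min_eq_left (hzu.trans huv)]
        exact mul_le_mul_of_nonneg_right huv hz.le
      · rw [min_eq_right hzu]
        have := min_le_right z v
        calc u * min z v ≤ u * v := mul_le_mul_of_nonneg_left this hu.le
          _ = v * u := mul_comm _ _
    nlinarith

theorem sm_add_le_fs {rej : List ℝ} (h : Pos rej) {u : ℝ} (hu : 0 < u) :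
    sm rej u + nb rej u * u = fs rej u := by
  induction rej with
  | nil => simp
  | cons z rej ih =>
    have h1 := ih h.tail
    rw [sm_cons, nb_cons, fs_cons]
    by_cases hz : z < u
    · rw [if_pos hz, if_neg (by linarith), min_eq_left hz.le]
      push_cast
      linarith
    · push Not at hz
      rw [if_neg (by linarith), if_pos hz, min_eq_right hz]
      push_cast
      linarith

/-- The parameters. -/
structure Par (c b Zi K : ℝ) (g : ℝ) : Prop where
  c_gt : 2 < c
  c_lt : c < 3
  b_eq : b * (c - 1) = 1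
  Zi_eq : Zi = b - (c - 2)
  Zi_pos : 0 < Zi
  g_pos : 0 < g
  K_eq : K * g = Zi ^ c
  g_le : ∀ n : ℕ, b ≤ 2 * Zi * c ^ n → g ≤ n

section
variable {c b Zi K g : ℝ}

theorem Par.b_pos (P : Par c b Zi K g) : 0 < b := by
  have h1 := P.b_eq
  have h2 := P.c_gt
  by_contra hb
  push Not at hb
  nlinarith

theorem Par.K_pos (P : Par c b Zi K g) : 0 < K := by
  have h1 := P.K_eq
  have h2 : 0 < Zi ^ c := Real.rpow_pos_of_pos P.Zi_pos _
  have h3 := P.g_pos
  by_contra hK
  push Not at hK
  nlinarith

/-- The first invariant. -/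
def InvJ (c b Zi : ℝ) (rej : List ℝ) : Prop :=
  ∀ u : ℝ, 0 < u → b ≤ (max (b - rej.sum) Zi + sm rej u) * c ^ (nb rej u)

theorem invJ_nil (P : Par c b Zi K g) : InvJ c b Zi [] := by
  intro u _
  simp

theorem invJ_cons (P : Par c b Zi K g) {rej : List ℝ} (hpos : Pos rej) {z : ℝ} (hz : 0 < z)
    (hJ : InvJ c b Zi rej)
    (hstep : (c - 1) * rej.sum + c * z < 1 ∨ 0 < rej.sum - (c - 2)) :
    InvJ c b Zi (z :: rej) := by
  intro u hu
  have h0 := hJ u hu
  have hc := P.c_gt
  have hsm := sm_nonneg hpos u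
  have hZi := P.Zi_pos
  have hpow : 0 < c ^ (nb rej u) := by positivity
  rw [List.sum_cons, sm_cons, nb_cons]
  by_cases hzu : z < u
  · rw [if_pos hzu, if_neg (by linarith), zero_add]
    refine h0.trans (mul_le_mul_of_nonneg_right ?_ hpow.le)
    have h1 : max (b - rej.sum) Zi ≤ max (b - (z + rej.sum)) Zi + z := by
      apply max_le
      · have := le_max_left (b - (z + rej.sum)) Zi
        linarith
      · have := le_max_right (b - (z + rej.sum)) Zi
        linarith
    linarith
  · push Not at hzu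
    rw [if_neg (by linarith), if_pos hzu, zero_add, add_comm 1 (nb rej u), pow_succ]
    have key : max (b - rej.sum) Zi + sm rej u ≤
        c * (max (b - (z + rej.sum)) Zi + sm rej u) := by
      have h1 : max (b - rej.sum) Zi ≤ c * max (b - (z + rej.sum)) Zi := by
        have h2 : Zi ≤ max (b - (z + rej.sum)) Zi := le_max_right _ _
        have h3 : b - (z + rej.sum) ≤ max (b - (z + rej.sum)) Zi := le_max_left _ _
        apply max_le
        · rcases hstep with h | h
          · -- type I
            have hb := P.b_eq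
            have h4 : b - rej.sum ≤ c * (b - (z + rej.sum)) := by nlinarith
            have h5 : c * (b - (z + rej.sum)) ≤ c * max (b - (z + rej.sum)) Zi :=
              mul_le_mul_of_nonneg_left h3 (by linarith)
            linarith
          · have h4 : b - rej.sum ≤ Zi := by rw [P.Zi_eq]; linarith
            nlinarith
        · nlinarith
      nlinarith
    calc b ≤ (max (b - rej.sum) Zi + sm rej u) * c ^ (nb rej u) := h0
      _ ≤ (c * (max (b - (z + rej.sum)) Zi + sm rej u)) * c ^ (nb rej u) :=
          mul_le_mul_of_nonneg_right key hpow.le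
      _ = (max (b - (z + rej.sum)) Zi + sm rej u) * (c ^ (nb rej u) * c) := by ring

/-- The second invariant. -/
def InvK (c K : ℝ) (rej : List ℝ) : Prop :=
  0 < rej.sum - (c - 2) → ∀ u : ℝ, 0 < u → c * (u + fs rej u) ≤ rej.sum - (c - 2) →
    c * u * (rej.sum - (c - 2)) ^ c ≤ K * (rej.sum - (c - 2) - c * u)

/-- While the sum is small the second invariant follows from the first. -/
theorem invK_of_invJ (P : Par c b Zi K g) {rej : List ℝ} (hpos : Pos rej)
    (hJ : InvJ c b Zi rej) (hX : rej.sum - (c - 2) ≤ Zi) : InvK c K rej := by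
  intro hZ u hu hf
  set Z : ℝ := rej.sum - (c - 2) with hZdef
  have hc := P.c_gt
  have h1 := hJ u hu
  have h2 := sm_add_le_fs hpos hu
  have hmax : max (b - rej.sum) Zi = Zi := by
    apply max_eq_right
    rw [P.Zi_eq]; linarith
  rw [hmax] at h1
  have hnbu : 0 ≤ (nb rej u : ℝ) * u := by positivity
  have hsm : sm rej u ≤ Zi := by nlinarith
  have hpow : 0 < c ^ (nb rej u) := by positivity
  have h3 : b ≤ 2 * Zi * c ^ (nb rej u) := by
    refine h1.trans (mul_le_mul_of_nonneg_right ?_ hpow.le)
    linarith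
  have hg := P.g_le _ h3
  have hsm0 := sm_nonneg hpos u
  have hK := P.K_pos
  have h4 : g * u ≤ fs rej u := by nlinarith
  have h5 : Z ^ c ≤ Zi ^ c := Real.rpow_le_rpow hZ.le hX (by linarith)
  have h6 : c * (g * u) ≤ Z - c * u := by nlinarith
  calc c * u * Z ^ c ≤ c * u * Zi ^ c := mul_le_mul_of_nonneg_left h5 (by positivity)
    _ = K * (c * (g * u)) := by rw [← P.K_eq]; ring
    _ ≤ K * (Z - c * u) := mul_le_mul_of_nonneg_left h6 hK.le

theorem rpow_bound {c ξ : ℝ} (hc : 2 < c) (hξ : 0 < ξ) (h : c * ξ < 1) :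
    (1 + ξ) ^ c * (1 - c * ξ) ≤ 1 := by
  have h1 : (1 + ξ) ^ c ≤ Real.exp (c * ξ) := by
    rw [Real.rpow_def_of_pos (by linarith)]
    apply Real.exp_le_exp.2
    have := Real.log_le_sub_one_of_pos (show 0 < 1 + ξ by linarith)
    nlinarith
  have h2 : Real.exp (c * ξ) * (1 - c * ξ) ≤ 1 := by
    have h3 : 1 - c * ξ ≤ Real.exp (-(c * ξ)) := by
      have := Real.add_one_le_exp (-(c * ξ))
      linarith
    calc Real.exp (c * ξ) * (1 - c * ξ) ≤ Real.exp (c * ξ) * Real.exp (-(c * ξ)) :=
          mul_le_mul_of_nonneg_left h3 (Real.exp_pos _).le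
      _ = 1 := by rw [← Real.exp_add]; simp
  exact (mul_le_mul_of_nonneg_right h1 (by linarith)).trans h2

/-- The second invariant is preserved by a rejection of the second type. -/
theorem invK_cons (P : Par c b Zi K g) {rej : List ℝ} (hpos : Pos rej) {z : ℝ} (hz : 0 < z)
    (hK : InvK c K rej) (hstep : c * (z + fs rej z) < rej.sum - (c - 2)) :
    InvK c K (z :: rej) := by
  have hc := P.c_gt
  have hKp := P.K_pos
  set Z : ℝ := rej.sum - (c - 2) with hZdef
  have hfz := fs_nonneg hpos hz.le
  have hZpos : 0 < Z := by nlinarith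
  have hcz : c * z < Z := by nlinarith
  intro _ u hu hf
  have hsum : (z :: rej).sum - (c - 2) = Z + z := by rw [List.sum_cons, hZdef]; ring
  rw [hsum] at hf ⊢
  rw [fs_cons] at hf
  have hden : 0 < Z + c * z := by nlinarith
  -- the comparison point
  obtain ⟨u0, hu0⟩ : ∃ u0 : ℝ, u0 * (Z + z) = u * (Z + c * z) :=
    ⟨u * (Z + c * z) / (Z + z), by field_simp⟩
  have huu0 : u ≤ u0 := by
    by_contra hcon
    push Not at hcon
    have h1 : u0 * (Z + z) < u * (Z + z) := mul_lt_mul_of_pos_right hcon (by linarith)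
    have h2 : u * (Z + z) ≤ u * (Z + c * z) := mul_le_mul_of_nonneg_left (by nlinarith) hu.le
    linarith
  have hu0pos : 0 < u0 := by linarith
  have hsc := fs_scale hpos hu huu0
  have hf0 : c * (u0 + fs rej u0) ≤ Z := by
    by_cases h1 : u0 ≤ z
    · have := fs_mono rej h1
      nlinarith
    · push Not at h1
      have hzz : z * (Z + z) ≤ u * (Z + c * z) := by
        rw [← hu0]; exact mul_le_mul_of_nonneg_right h1.le (by linarith)
      -- c (u0 + fs u0) ≤ (u0/u) c (u + fs u)
      have h2 : u * (c * (u0 + fs rej u0)) ≤ u0 * (c * (u + fs rej u)) := by nlinarith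
      rcases le_total u z with huz | huz
      · rw [min_eq_right huz] at hf
        -- c (u + fs u) ≤ Z + z - c u
        have h3 : c * (u + fs rej u) ≤ Z + z - c * u := by linarith
        have h4 : u * (c * (u0 + fs rej u0)) ≤ u0 * (Z + z - c * u) :=
          h2.trans (mul_le_mul_of_nonneg_left h3 hu0pos.le)
        have h5 : u0 * (Z + z - c * u) * (Z + z) ≤ u * Z * (Z + z) := by
          have e1 : u0 * (Z + z - c * u) * (Z + z) = (u0 * (Z + z)) * (Z + z - c * u) := by ring
          rw [e1, hu0]
          have e2 : u * (Z + c * z) * (Z + z - c * u) ≤ u * (Z * (Z + z)) := by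
            rw [mul_assoc]
            apply mul_le_mul_of_nonneg_left _ hu.le
            nlinarith
          calc u * (Z + c * z) * (Z + z - c * u) ≤ u * (Z * (Z + z)) := e2
            _ = u * Z * (Z + z) := by ring
        have h6 : u0 * (Z + z - c * u) ≤ u * Z := le_of_mul_le_mul_right h5 (by linarith)
        exact le_of_mul_le_mul_left (h4.trans h6) hu
      · rw [min_eq_left huz] at hf
        have h3 : c * (u + fs rej u) ≤ Z + z - c * z := by linarith
        have h4 : u * (c * (u0 + fs rej u0)) ≤ u0 * (Z + z - c * z) :=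
          h2.trans (mul_le_mul_of_nonneg_left h3 hu0pos.le)
        have h5 : u0 * (Z + z - c * z) * (Z + z) ≤ u * Z * (Z + z) := by
          have e1 : u0 * (Z + z - c * z) * (Z + z) = (u0 * (Z + z)) * (Z + z - c * z) := by ring
          rw [e1, hu0]
          have e2 : (Z + c * z) * (Z + z - c * z) ≤ Z * (Z + z) := by
            have : 0 ≤ c * (c - 1) * z ^ 2 := by
              have : 0 ≤ c - 1 := by linarith
              positivity
            nlinarith
          calc u * (Z + c * z) * (Z + z - c * z) = u * ((Z + c * z) * (Z + z - c * z)) := by ring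
            _ ≤ u * (Z * (Z + z)) := mul_le_mul_of_nonneg_left e2 hu.le
            _ = u * Z * (Z + z) := by ring
        have h6 : u0 * (Z + z - c * z) ≤ u * Z := le_of_mul_le_mul_right h5 (by linarith)
        exact le_of_mul_le_mul_left (h4.trans h6) hu
  have hI := hK hZpos u0 hu0pos hf0
  have hI2 := hK hZpos z hz hstep.le
  rw [← hZdef] at hI hI2
  set Q : ℝ := Z ^ c with hQ
  have hQ0 : 0 < Q := Real.rpow_pos_of_pos hZpos _
  -- the power of the new value
  set ξ : ℝ := z / Z with hξ
  have hξ0 : 0 < ξ := by positivity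
  have hcξ : c * ξ < 1 := by rw [hξ, ← mul_div_assoc, div_lt_one hZpos]; exact hcz
  have hzξ : z = ξ * Z := by rw [hξ]; field_simp
  have hpow : (Z + z) ^ c = Q * (1 + ξ) ^ c := by
    rw [hQ, ← Real.mul_rpow hZpos.le (by linarith)]
    congr 1
    rw [hzξ]; ring
  rw [hpow]
  have hb := rpow_bound hc hξ0 hcξ
  set E : ℝ := (1 + ξ) ^ c with hE
  have hE0 : 0 < E := Real.rpow_pos_of_pos (by linarith) _
  -- K ≥ Q c ξ / (1 - c ξ)
  have hI2' : c * ξ * Q ≤ K * (1 - c * ξ) := by
    have : Z * (c * ξ * Q) ≤ Z * (K * (1 - c * ξ)) := by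
      calc Z * (c * ξ * Q) = c * z * Q := by rw [hzξ]; ring
        _ ≤ K * (Z - c * z) := hI2
        _ = Z * (K * (1 - c * ξ)) := by rw [hzξ]; ring
    exact le_of_mul_le_mul_left this hZpos
  -- Q E ≤ Q + c ξ Q + c ξ K
  have h1c : 0 < 1 - c * ξ := by linarith
  have hmain : Q * E ≤ Q + c * ξ * Q + c * ξ * K := by
    have h7 : (Q * E) * (1 - c * ξ) ≤ (Q + c * ξ * Q + c * ξ * K) * (1 - c * ξ) := by
      have h8 : (Q * E) * (1 - c * ξ) ≤ Q := by nlinarith
      have h9 : Q ≤ (Q + c * ξ * Q + c * ξ * K) * (1 - c * ξ) := by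
        have h10 : c * ξ * (c * ξ * Q) ≤ c * ξ * (K * (1 - c * ξ)) :=
          mul_le_mul_of_nonneg_left hI2' (by positivity)
        nlinarith
      exact h8.trans h9
    exact le_of_mul_le_mul_right h7 h1c
  -- conclusion
  -- from hI : c u0 Q ≤ K (Z - c u0)
  have h11 : c * u * (Z + c * z) * (Q + K) ≤ K * Z * (Z + z) := by
    have : c * u0 * (Q + K) ≤ K * Z := by linarith
    have h12 : c * u0 * (Q + K) * (Z + z) ≤ K * Z * (Z + z) :=
      mul_le_mul_of_nonneg_right this (by linarith)
    calc c * u * (Z + c * z) * (Q + K) = c * (u * (Z + c * z)) * (Q + K) := by ring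
      _ = c * (u0 * (Z + z)) * (Q + K) := by rw [hu0]
      _ = c * u0 * (Q + K) * (Z + z) := by ring
      _ ≤ K * Z * (Z + z) := h12
  have h13 : Z * (Q * E + K) ≤ (Z + c * z) * (Q + K) := by
    have : Z * (Q * E + K) ≤ Z * (Q + c * ξ * Q + c * ξ * K + K) :=
      mul_le_mul_of_nonneg_left (by linarith) hZpos.le
    calc Z * (Q * E + K) ≤ Z * (Q + c * ξ * Q + c * ξ * K + K) := this
      _ = (Z + c * (ξ * Z)) * (Q + K) := by ring
      _ = (Z + c * z) * (Q + K) := by rw [← hzξ]
  have h14 : Z * (c * u * (Q * E + K)) ≤ Z * (K * (Z + z)) := by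
    calc Z * (c * u * (Q * E + K)) = c * u * (Z * (Q * E + K)) := by ring
      _ ≤ c * u * ((Z + c * z) * (Q + K)) := mul_le_mul_of_nonneg_left h13 (by positivity)
      _ = c * u * (Z + c * z) * (Q + K) := by ring
      _ ≤ K * Z * (Z + z) := h11
      _ = Z * (K * (Z + z)) := by ring
  have h15 := le_of_mul_le_mul_left h14 hZpos
  linarith

end

end Pool.Agent.H78.Sched
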