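import Pool.Agent.H78.Sched.Wave
import Pool.Agent.H78.Sched.Exists

namespace Pool.Agent.H78.Sched

variable {m : ℕ}

/-- Phase one: unit jobs with penalties `c⁻¹, c⁻², ...`. -/
noncomputable def phase (c : ℝ) (k : ℕ) : List (ℝ × ℝ) :=
  (List.range k).map (fun i => ((1 : ℝ), (c ^ (i + 1))⁻¹))

theorem phase_succ (c : ℝ) (k : ℕ) : phase c (k + 1) = phase c k ++ [(1, (c ^ (k + 1))⁻¹)] := by
  unfold phase
  rw [List.range_succ, List.map_append, List.map_singleton]

theorem phase_length (c : ℝ) (k : ℕ) : (phase c k).length = k := by simp [phase]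

/-- The sum of the penalties of phase one. -/
noncomputable def psum (c : ℝ) (k : ℕ) : ℝ := ((phase c k).map (·.2)).sum

theorem psum_succ (c : ℝ) (k : ℕ) : psum c (k + 1) = psum c k + (c ^ (k + 1))⁻¹ := by
  unfold psum
  rw [phase_succ, List.map_append, List.sum_append]
  simp

theorem psum_mul {c : ℝ} (hc : 1 < c) (k : ℕ) : psum c k * (c - 1) = 1 - (c ^ k)⁻¹ := by
  induction k with
  | zero => simp [psum, phase]
  | succ k ih =>
    rw [psum_succ, add_mul, ih]
    have : c ^ k ≠ 0 := by positivity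
    have hc0 : c ≠ 0 := by positivity
    rw [pow_succ]
    field_simp
    ring

theorem unitJobs_phase {c : ℝ} (hc : 1 < c) (k : ℕ) : UnitJobs (phase c k) := by
  intro j hj
  unfold phase at hj
  rw [List.mem_map] at hj
  obtain ⟨i, _, rfl⟩ := hj
  exact ⟨rfl, by positivity⟩

section
variable {A : List (ℝ × ℝ) → Option (Fin m)} {r : ℝ}

theorem phase_rej (hA : UnitCompetitive m A r) {c : ℝ} (hc : 1 < c) (hrc : r < c) (k : ℕ) :
    rc A (phase c k) = k ∧ rx A (phase c k) = psum c k := by
  induction k with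
  | zero => exact ⟨by simp [phase, rc_nil], by simp [phase, rx_nil, psum]⟩
  | succ k ih =>
    obtain ⟨h1, h2⟩ := ih
    have hp : (0 : ℝ) < (c ^ (k + 1))⁻¹ := by positivity
    have hrej : A (phase c k ++ [(1, (c ^ (k + 1))⁻¹)]) = none := by
      by_contra hacc
      have h3 := accept_first hA (unitJobs_phase hc k) (by rw [h1, phase_length]) h2 hp hacc
      rw [h2] at h3
      have h4 := psum_mul hc k
      have hs : 0 ≤ psum c k := by
        rw [← h2]; exact rx_nonneg (unitJobs_phase hc k)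
      have h5 : c * (c ^ (k + 1))⁻¹ = (c ^ k)⁻¹ := by
        rw [pow_succ]
        have : c ^ k ≠ 0 := by positivity
        have hc0 : c ≠ 0 := by positivity
        field_simp
      have h6 : r * (psum c k + (c ^ (k + 1))⁻¹) < c * (psum c k + (c ^ (k + 1))⁻¹) :=
        mul_lt_mul_of_pos_right hrc (by linarith)
      nlinarith
    rw [phase_succ, rc_snoc, rx_snoc, if_pos hrej, if_pos hrej, h1, h2, psum_succ]
    exact ⟨rfl, rfl⟩

open Real in
theorem phi_sq' : goldenRatio ^ 2 = goldenRatio + 1 := goldenRatio_sq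

open Real in
/-- The estimate for a fixed number `k` of jobs in phase one. -/
theorem estimate (hA : UnitCompetitive m A r) (hm : 16 ≤ m) {c : ℝ} (hc : 2 ≤ c)
    (hc' : c ≤ 1 + goldenRatio) (hrc : r < c) {k : ℕ} (hk : k + 1 ≤ m) (hkm : m ≤ 2 ^ k)
    (hW : 64 * exp 2 * (k + 1) ≤ m) :
    1 + goldenRatio - c ≤ (64 * exp 2 * (k + 1) / m) ^ (1 / (1 + goldenRatio)) + 1 / m := by
  have hm0 : (0 : ℝ) < m := by
    have : 0 < m := by omega
    exact_mod_cast this
  have hφ1 : goldenRatio < 1.6181 := by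
    have h := goldenRatio_sq
    nlinarith [goldenRatio_pos]
  have hφ2 : 1.618 < goldenRatio := by
    have h := goldenRatio_sq
    nlinarith [goldenRatio_pos]
  have hsq := goldenRatio_sq
  have hc1 : (1 : ℝ) < c := by linarith
  obtain ⟨h1, h2⟩ := phase_rej hA hc1 hrc k
  have h3 := psum_mul hc1 k
  have hck : (c ^ k)⁻¹ ≤ 1 / m := by
    rw [← one_div]
    apply one_div_le_one_div_of_le hm0
    calc (m : ℝ) ≤ (2 : ℝ) ^ k := by exact_mod_cast hkm
      _ ≤ c ^ k := pow_le_pow_left₀ (by norm_num) hc k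
  have hck0 : 0 < (c ^ k)⁻¹ := by positivity
  -- lower bound for the state variable
  have hZ : 1 + goldenRatio - c - 1 / m ≤ 2 + rx A (phase c k) - c := by
    rw [h2]
    have h4 : (2 + psum c k - c) * (c - 1) = (1 + goldenRatio - c) * (c - (2 - goldenRatio)) -
        (c ^ k)⁻¹ := by
      have : (2 + psum c k - c) * (c - 1) = (2 - c) * (c - 1) + psum c k * (c - 1) := by ring
      rw [this, h3]
      nlinarith
    have h5 : (1 + goldenRatio - c) * (c - 1) ≤ (1 + goldenRatio - c) * (c - (2 - goldenRatio)) :=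
      mul_le_mul_of_nonneg_left (by linarith) (by linarith)
    have h6 : 1 / (m : ℝ) ≤ 1 / m * (c - 1) := by
      have : 0 < 1 / (m : ℝ) := by positivity
      nlinarith
    have h7 : (1 + goldenRatio - c - 1 / m) * (c - 1) ≤ (2 + psum c k - c) * (c - 1) := by
      rw [h4]; nlinarith
    exact le_of_mul_le_mul_right h7 (by linarith)
  have hWpos : 0 < 64 * exp 2 * ((k : ℝ) + 1) / m := by positivity
  by_cases hcase : 1 + goldenRatio - c - 1 / m ≤ 0
  · have : 0 ≤ (64 * exp 2 * ((k : ℝ) + 1) / m) ^ (1 / (1 + goldenRatio)) := by positivity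
    linarith
  · push Not at hcase
    set Z : ℝ := 2 + rx A (phase c k) - c with hZdef
    have hZ0 : 0 < Z := by linarith
    have hk1 : (k : ℝ) + 1 ≤ m := by exact_mod_cast hk
    have hgood : Good A c (log Z - 1 / c * log (k + 1)) (phase c k) := by
      refine ⟨unitJobs_phase hc1 k, hZ0, ?_, ?_, ?_⟩
      · rw [phase_length, h1]
        have h8 : (k : ℝ) + 1 ≤ Real.sqrt (((k : ℝ) + 1) * m) := by
          apply Real.le_sqrt_of_sq_le
          nlinarith [(Nat.cast_nonneg k : (0 : ℝ) ≤ (k : ℝ))]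
        linarith [(Nat.cast_nonneg k : (0 : ℝ) ≤ (k : ℝ))]
      · rw [phase_length]; exact hk
      · unfold Sched.pot
        rw [h1, ← hZdef]
        have : 0 ≤ 2 / c * Real.sqrt (((k : ℝ) + 1) / m) := by positivity
        linarith
    have hcore := core hA hm hc (by linarith) hrc hgood
    have hlogW : log (64 * exp 2 * ((k : ℝ) + 1) / m) = 2 - log (m / 64) + log (k + 1) := by
      have e1 : 64 * exp 2 * ((k : ℝ) + 1) / m = exp 2 * ((k : ℝ) + 1) / (m / 64) := by
        field_simp
      rw [e1, log_div (by positivity) (by positivity), log_mul (by positivity) (by positivity),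
        log_exp]
      ring
    have hlogZ : log Z ≤ 1 / c * log (64 * exp 2 * ((k : ℝ) + 1) / m) := by
      rw [hlogW]; linarith
    have hW1 : 64 * exp 2 * ((k : ℝ) + 1) / m ≤ 1 := by
      rw [div_le_one hm0]; exact hW
    have hlW0 : log (64 * exp 2 * ((k : ℝ) + 1) / m) ≤ 0 := log_nonpos hWpos.le hW1
    have h9 : 1 / (1 + goldenRatio) ≤ 1 / c :=
      one_div_le_one_div_of_le (by linarith) hc'
    have h10 : log Z ≤ 1 / (1 + goldenRatio) * log (64 * exp 2 * ((k : ℝ) + 1) / m) :=
      hlogZ.trans (mul_le_mul_of_nonpos_right h9 hlW0)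
    rw [← log_rpow hWpos] at h10
    have h11 : Z ≤ (64 * exp 2 * ((k : ℝ) + 1) / m) ^ (1 / (1 + goldenRatio)) :=
      (log_le_log_iff hZ0 (by positivity)).1 h10
    linarith

open Real in
/-- The lower bound for the competitive ratio of an arbitrary algorithm. -/
theorem lower (hA : UnitCompetitive m A r) (hm : 2 ≤ m) :
    1 + goldenRatio - 45 * (log m / m) ^ (1 / (1 + goldenRatio)) ≤ r := by
  by_contra hcon
  push Not at hcon
  have hm0 : (0 : ℝ) < m := by
    have : 0 < m := by omega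
    exact_mod_cast this
  have hm2 : (2 : ℝ) ≤ m := by exact_mod_cast hm
  have hφ1 : goldenRatio < 1.6181 := by
    have h := goldenRatio_sq
    nlinarith [goldenRatio_pos]
  have hφ2 : 1.618 < goldenRatio := by
    have h := goldenRatio_sq
    nlinarith [goldenRatio_pos]
  set ψ : ℝ := 1 / (1 + goldenRatio) with hψ
  have hψ0 : 0 < ψ := by positivity
  have hψ1 : ψ ≤ 2 / 5 := by
    rw [hψ, div_le_iff₀ (by linarith)]; linarith
  set v : ℝ := log m / m with hv
  have hlog2 : (0.69 : ℝ) ≤ log m := by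
    have h1 : log 2 ≤ log m := log_le_log (by norm_num) hm2
    have h2 := log_two_gt_d9
    linarith
  have hv0 : 0 < v := by rw [hv]; positivity
  set u : ℝ := v ^ ψ with hu
  have hu0 : 0 < u := rpow_pos_of_pos hv0 _
  have hr1 : 1 ≤ r := by
    have := one_more hA UnitJobs.nil (by simp; omega)
    rw [rx_nil] at this
    linarith
  have hu1 : u < 1 / 16 := by
    have : 45 * u < goldenRatio := by linarith
    linarith
  have hvu : v = u ^ (1 + goldenRatio) := by
    rw [hu, ← rpow_mul hv0.le, hψ]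
    rw [one_div, inv_mul_cancel₀ (by linarith), rpow_one]
  have hv1 : v ≤ 1 / 1024 := by
    rw [hvu]
    calc u ^ (1 + goldenRatio) ≤ (1 / 16) ^ (1 + goldenRatio) :=
          rpow_le_rpow hu0.le hu1.le (by linarith)
      _ ≤ (1 / 16) ^ (5 / 2 : ℝ) :=
          rpow_le_rpow_of_exponent_ge (by norm_num) (by norm_num) (by linarith)
      _ = 1 / 1024 := by
          rw [show (1 / 16 : ℝ) = (1 / 4) ^ (2 : ℝ) by norm_num, ← rpow_mul (by norm_num)]
          norm_num
  have hm700 : (700 : ℝ) ≤ m := by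
    rw [hv, div_le_iff₀ hm0] at hv1
    linarith
  have hlogm : 1 < log m := by
    have h1 : log 16 ≤ log m := log_le_log (by norm_num) (by linarith)
    have h2 : log 16 = 4 * log 2 := by
      rw [show (16 : ℝ) = 2 ^ 4 by norm_num, log_pow]; norm_num
    have h3 := log_two_gt_d9
    linarith
  set k : ℕ := Nat.clog 2 m with hk
  have hkm : m ≤ 2 ^ k := Nat.le_pow_clog (by norm_num) m
  have hm16 : 16 ≤ m := by
    have : (16 : ℝ) ≤ m := by linarith
    exact_mod_cast this
  have hlog16 : 4 * log 2 ≤ log m := by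
    have h1 : log 16 ≤ log m := log_le_log (by norm_num) (by linarith)
    have h2 : log 16 = 4 * log 2 := by
      rw [show (16 : ℝ) = 2 ^ 4 by norm_num, log_pow]; norm_num
    linarith
  have hklog : ((k : ℝ) + 1) * log 2 ≤ 3 / 2 * log m := by
    have h1 : 2 ^ (k - 1) < m := Nat.pow_pred_clog_lt_self (by norm_num) (by omega)
    have h2 : 1 ≤ k := Nat.clog_pos (by norm_num) (by omega)
    have h3 : log ((2 : ℝ) ^ (k - 1)) ≤ log m := by
      apply log_le_log (by positivity)
      exact_mod_cast h1.le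
    rw [log_pow, Nat.cast_sub h2] at h3
    push_cast at h3
    nlinarith
  have hexp : exp 2 < 7.3891 := by
    have h1 : exp 2 = exp 1 * exp 1 := by rw [← exp_add]; norm_num
    have h2 := exp_one_lt_d9
    have h3 := exp_pos 1
    rw [h1]; nlinarith
  have hWle : 64 * exp 2 * ((k : ℝ) + 1) ≤ 1024 * log m := by
    have h1 := log_two_gt_d9
    have h2 : (0 : ℝ) ≤ (k : ℝ) + 1 := by positivity
    have h3 : ((k : ℝ) + 1) * 0.6931471803 ≤ 3 / 2 * log m := by nlinarith
    have h4 : 64 * exp 2 * ((k : ℝ) + 1) ≤ 64 * 7.3891 * ((k : ℝ) + 1) := by nlinarith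
    nlinarith
  have hW : 64 * exp 2 * ((k : ℝ) + 1) ≤ m := by
    rw [hv, div_le_iff₀ hm0] at hv1
    linarith
  have hk1 : k + 1 ≤ m := by
    have h1 : (1 : ℝ) ≤ exp 2 := one_le_exp (by norm_num)
    have h2 : (k : ℝ) + 1 ≤ m := by nlinarith [(Nat.cast_nonneg k : (0 : ℝ) ≤ (k : ℝ))]
    exact_mod_cast h2
  have hest := estimate hA hm16 (c := 1 + goldenRatio - 17 * u) (by linarith) (by linarith)
    (by linarith) hk1 hkm hW
  rw [← hψ] at hest
  have hWv : 64 * exp 2 * ((k : ℝ) + 1) / m ≤ 1024 * v := by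
    rw [hv, ← mul_div_assoc]
    exact div_le_div_of_nonneg_right hWle hm0.le
  have h16 : (64 * exp 2 * ((k : ℝ) + 1) / m) ^ ψ ≤ 16 * u := by
    calc (64 * exp 2 * ((k : ℝ) + 1) / m) ^ ψ ≤ (1024 * v) ^ ψ :=
          rpow_le_rpow (by positivity) hWv hψ0.le
      _ = 1024 ^ ψ * u := by rw [mul_rpow (by norm_num) hv0.le]
      _ ≤ 16 * u := by
          apply mul_le_mul_of_nonneg_right _ hu0.le
          calc (1024 : ℝ) ^ ψ ≤ 1024 ^ (2 / 5 : ℝ) :=
                rpow_le_rpow_of_exponent_le (by norm_num) hψ1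
            _ = 16 := by
                rw [show (1024 : ℝ) = 4 ^ (5 : ℝ) by norm_num, ← rpow_mul (by norm_num)]
                norm_num
  have h1m : 1 / (m : ℝ) < u := by
    have h1 : 1 / (m : ℝ) < v := by
      rw [hv]; exact div_lt_div_of_pos_right hlogm hm0
    have h2 : v ^ (1 : ℝ) ≤ v ^ ψ :=
      rpow_le_rpow_of_exponent_ge hv0 (by linarith) (by linarith)
    rw [rpow_one] at h2
    linarith
  linarith

theorem Competitive.unit {A : List (ℝ × ℝ) → Option (Fin m)} {c : ℝ}
    (hA : Competitive m A c) : UnitCompetitive m A c :=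
  fun I hI => hA I (fun j hj => ⟨by rw [(hI j hj).1]; exact one_pos, (hI j hj).2⟩)

open Real in
/-- The lower bound for `R m`. -/
theorem main (m : ℕ) (hm : 2 ≤ m) :
    1 + goldenRatio - 45 * (log m / m) ^ (1 / (1 + goldenRatio)) ≤ R m := by
  unfold R
  apply le_csInf
  · obtain ⟨A, hA⟩ := exists_competitive (m := m) (by omega)
    exact ⟨m, A, hA⟩
  · rintro c ⟨A, hA⟩
    exact lower hA.unit hm

open Real in
/-- The lower bound for `unitR m`. -/
theorem main_unit (m : ℕ) (hm : 2 ≤ m) :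
    1 + goldenRatio - 45 * (log m / m) ^ (1 / (1 + goldenRatio)) ≤ unitR m := by
  unfold unitR
  apply le_csInf
  · obtain ⟨A, hA⟩ := exists_competitive (m := m) (by omega)
    exact ⟨m, A, hA.unit⟩
  · rintro c ⟨A, hA⟩
    exact lower hA hm

theorem unitR_bddBelow (m : ℕ) :
    BddBelow {c | ∃ A : List (ℝ × ℝ) → Option (Fin m), UnitCompetitive m A c} := by
  refine ⟨0, ?_⟩
  rintro c ⟨A, hA⟩
  exact hA.nonneg

/-- The restricted model is not harder. -/
theorem unitR_le_R {m : ℕ} (hm : 0 < m) : unitR m ≤ R m := by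
  unfold R
  apply le_csInf
  · obtain ⟨A, hA⟩ := exists_competitive (m := m) hm
    exact ⟨m, A, hA⟩
  · rintro c ⟨A, hA⟩
    exact csInf_le (unitR_bddBelow m) ⟨A, hA.unit⟩

end

end Pool.Agent.H78.Sched
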