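import Pool.Agent.H78.Sched.Basic
import Pool.Agent.H78.Sched.Growth

/-!
The threshold algorithm for unit running times.
-/

namespace Pool.Agent.H78.Sched

variable {m : ℕ}

/-- The acceptance rule. -/
def Acc (c δ : ℝ) (rej : List ℝ) (p : ℝ) : Prop :=
  δ < p ∧ 1 ≤ (c - 1) * rej.sum + c * p ∧ rej.sum - (c - 2) ≤ c * (p + fs rej p)

open Classical in
/-- One step of the state. -/
noncomputable def stp (c δ : ℝ) (s : List ℝ × ℕ) (p : ℝ) : List ℝ × ℕ :=
  if Acc c δ s.1 p then (s.1, s.2 + 1) else if δ < p then (p :: s.1, s.2) else s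

/-- The state after a list of jobs. -/
noncomputable def stt (c δ : ℝ) (L : List (ℝ × ℝ)) : List ℝ × ℕ :=
  L.foldl (fun s j => stp c δ s j.2) ([], 0)

theorem stt_nil (c δ : ℝ) : stt c δ [] = ([], 0) := rfl

theorem stt_snoc (c δ : ℝ) (L : List (ℝ × ℝ)) (j : ℝ × ℝ) :
    stt c δ (L ++ [j]) = stp c δ (stt c δ L) j.2 := by
  unfold stt
  rw [List.foldl_append]
  rfl

open Classical in
/-- The decision. -/
noncomputable def dcs (hm : 0 < m) (c δ : ℝ) (s : List ℝ × ℕ) (p : ℝ) : Option (Fin m) :=
  if Acc c δ s.1 p then some ⟨s.2 % m, Nat.mod_lt _ hm⟩ else none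

/-- The algorithm. -/
noncomputable def alg (hm : 0 < m) (c δ : ℝ) (L : List (ℝ × ℝ)) : Option (Fin m) :=
  L.getLast?.bind (fun j => dcs hm c δ (stt c δ L.dropLast) j.2)

theorem alg_snoc (hm : 0 < m) (c δ : ℝ) (L : List (ℝ × ℝ)) (j : ℝ × ℝ) :
    alg hm c δ (L ++ [j]) = dcs hm c δ (stt c δ L) j.2 := by
  simp [alg]

theorem run_alg_snoc (hm : 0 < m) (c δ : ℝ) (L : List (ℝ × ℝ)) (j : ℝ × ℝ) :
    run (alg hm c δ) (L ++ [j]) = run (alg hm c δ) L ++ [dcs hm c δ (stt c δ L) j.2] := by
  rw [run_snoc, alg_snoc]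

/-- Sum of a function over the rejected jobs with penalty larger than `δ`. -/
noncomputable def rsum (δ : ℝ) (F : ℝ → ℝ) (I : List (ℝ × ℝ)) (α : List (Option (Fin m))) : ℝ :=
  (List.zipWith (fun (j : ℝ × ℝ) (d : Option (Fin m)) => if d = none ∧ δ < j.2 then F j.2 else 0)
    I α).sum

theorem rsum_snoc (δ : ℝ) (F : ℝ → ℝ) {I : List (ℝ × ℝ)} {α : List (Option (Fin m))}
    (h : I.length = α.length) (j : ℝ × ℝ) (d : Option (Fin m)) :
    rsum δ F (I ++ [j]) (α ++ [d]) = rsum δ F I α + if d = none ∧ δ < j.2 then F j.2 else 0 := by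
  unfold rsum
  rw [List.zipWith_append h, List.sum_append]
  simp

theorem rsum_cons (δ : ℝ) (F : ℝ → ℝ) (I : List (ℝ × ℝ)) (α : List (Option (Fin m)))
    (j : ℝ × ℝ) (d : Option (Fin m)) :
    rsum δ F (j :: I) (d :: α) = (if d = none ∧ δ < j.2 then F j.2 else 0) + rsum δ F I α := by
  unfold rsum
  simp

theorem rsum_run (hm : 0 < m) (c δ : ℝ) (F : ℝ → ℝ) (I : List (ℝ × ℝ)) :
    rsum δ F I (run (alg hm c δ) I) = ((stt c δ I).1.map F).sum := by
  induction I using List.reverseRecOn with
  | nil => simp [rsum, run, stt_nil]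
  | append_singleton I j ih =>
    rw [run_alg_snoc, rsum_snoc _ _ (by simp), ih, stt_snoc]
    unfold dcs stp
    by_cases hacc : Acc c δ (stt c δ I).1 j.2
    · rw [if_pos hacc, if_pos hacc]
      simp
    · rw [if_neg hacc, if_neg hacc]
      by_cases hd : δ < j.2
      · rw [if_pos hd]
        simp [hd, add_comm]
      · rw [if_neg hd]
        simp [hd]

theorem rsum_id (hm : 0 < m) (c δ : ℝ) (I : List (ℝ × ℝ)) :
    rsum δ (fun z => z) I (run (alg hm c δ) I) = (stt c δ I).1.sum := by
  rw [rsum_run]; simp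

theorem rsum_min (hm : 0 < m) (c δ u : ℝ) (I : List (ℝ × ℝ)) :
    rsum δ (fun z => min z u) I (run (alg hm c δ) I) = fs (stt c δ I).1 u := by
  rw [rsum_run]; rfl

/-- Number of accepted jobs. -/
def na (α : List (Option (Fin m))) : ℕ := α.countP (fun d => d.isSome)

theorem na_nil : na ([] : List (Option (Fin m))) = 0 := rfl

theorem na_cons (d : Option (Fin m)) (α : List (Option (Fin m))) :
    na (d :: α) = na α + if d = none then 0 else 1 := by
  unfold na
  rw [List.countP_cons]
  cases d <;> simp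

theorem na_append (α β : List (Option (Fin m))) : na (α ++ β) = na α + na β := by
  unfold na
  rw [List.countP_append]

theorem na_add_count (α : List (Option (Fin m))) : na α + α.count none = α.length := by
  induction α with
  | nil => simp [na_nil]
  | cons d α ih =>
    rw [na_cons, List.count_cons, List.length_cons]
    cases d with
    | none => simp; omega
    | some k => simp; omega

theorem na_run (hm : 0 < m) (c δ : ℝ) (I : List (ℝ × ℝ)) :
    na (run (alg hm c δ) I) = (stt c δ I).2 := by
  induction I using List.reverseRecOn with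
  | nil => simp [run, stt_nil, na_nil]
  | append_singleton I j ih =>
    rw [run_alg_snoc, na_append, ih, stt_snoc]
    unfold dcs stp
    by_cases hacc : Acc c δ (stt c δ I).1 j.2
    · rw [if_pos hacc, if_pos hacc]; rfl
    · rw [if_neg hacc, if_neg hacc]
      by_cases hd : δ < j.2
      · rw [if_pos hd]; rfl
      · rw [if_neg hd]; rfl

theorem div_mod_succ (hm : 0 < m) (n : ℕ) (i : Fin m) :
    (n + 1) / m + (if (i : ℕ) < (n + 1) % m then 1 else 0) =
      n / m + (if (i : ℕ) < n % m then 1 else 0) + (if n % m = (i : ℕ) then 1 else 0) := by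
  have hi := i.2
  have hr : n % m < m := Nat.mod_lt _ hm
  by_cases h : n % m + 1 = m
  · have h1 : (n + 1) / m = n / m + 1 := by
      rw [Nat.succ_div, if_pos]
      refine ⟨n / m + 1, ?_⟩
      have h3 := Nat.div_add_mod n m
      have h4 : m * (n / m + 1) = m * (n / m) + m := by ring
      omega
    have h2 : (n + 1) % m = 0 := by
      have := Nat.div_add_mod (n + 1) m
      have h3 := Nat.div_add_mod n m
      rw [h1] at this
      have h4 : m * (n / m + 1) = m * (n / m) + m := by ring
      omega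
    rw [h1, h2]
    split_ifs <;> omega
  · have h1 : (n + 1) / m = n / m := by
      have h3 := Nat.div_add_mod n m
      apply Nat.div_eq_of_lt_le
      · have : (n / m) * m = m * (n / m) := mul_comm _ _
        omega
      · have : (n / m + 1) * m = m * (n / m) + m := by ring
        omega
    have h2 : (n + 1) % m = n % m + 1 := by
      have := Nat.div_add_mod (n + 1) m
      have h3 := Nat.div_add_mod n m
      rw [h1] at this
      omega
    rw [h1, h2]
    split_ifs <;> omega

theorem count_run (hm : 0 < m) (c δ : ℝ) (I : List (ℝ × ℝ)) (i : Fin m) :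
    (run (alg hm c δ) I).count (some i) =
      (stt c δ I).2 / m + (if (i : ℕ) < (stt c δ I).2 % m then 1 else 0) := by
  induction I using List.reverseRecOn with
  | nil => simp [run, stt_nil]
  | append_singleton I j ih =>
    rw [run_alg_snoc, List.count_append, ih, stt_snoc]
    unfold dcs stp
    by_cases hacc : Acc c δ (stt c δ I).1 j.2
    · rw [if_pos hacc, if_pos hacc]
      simp only
      rw [div_mod_succ hm]
      congr 1
      rw [List.count_singleton]
      by_cases h : (stt c δ I).2 % m = (i : ℕ)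
      · rw [if_pos h]
        have : (some (⟨(stt c δ I).2 % m, Nat.mod_lt _ hm⟩ : Fin m) == some i) = true := by
          simp [Fin.ext_iff, h]
        rw [if_pos this]
      · rw [if_neg h]
        have : ¬ (some (⟨(stt c δ I).2 % m, Nat.mod_lt _ hm⟩ : Fin m) == some i) = true := by
          simp [Fin.ext_iff, h]
        rw [if_neg this]
    · rw [if_neg hacc, if_neg hacc]
      by_cases hd : δ < j.2
      · rw [if_pos hd]; simp
      · rw [if_neg hd]; simp

/-- The makespan of the algorithm. -/
noncomputable def mk (m n : ℕ) : ℝ := ((n / m + (if 0 < n % m then 1 else 0) : ℕ) : ℝ)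

theorem makespan_run (hm : 0 < m) (c δ : ℝ) {I : List (ℝ × ℝ)} (hI : ∀ j ∈ I, j.1 = 1) :
    ⨆ i : Fin m, load I (run (alg hm c δ) I) i ≤ mk m (stt c δ I).2 := by
  have : Nonempty (Fin m) := ⟨⟨0, hm⟩⟩
  apply ciSup_le
  intro i
  rw [load_unit hI (by simp), count_run]
  unfold mk
  have : (stt c δ I).2 / m + (if (i : ℕ) < (stt c δ I).2 % m then 1 else 0) ≤
      (stt c δ I).2 / m + (if 0 < (stt c δ I).2 % m then 1 else 0) := by
    split_ifs <;> omega
  exact_mod_cast this

theorem mk_le_of_le (hm : 0 < m) {n k : ℕ} (h : n ≤ k * m) : mk m n ≤ k := by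
  unfold mk
  have h1 := Nat.div_add_mod n m
  have : n / m + (if 0 < n % m then 1 else 0) ≤ k := by
    have hr : n % m < m := Nat.mod_lt _ hm
    split_ifs with h2
    · by_contra hcon
      push Not at hcon
      have h3 : k ≤ n / m := by omega
      have h4 : m * k ≤ m * (n / m) := Nat.mul_le_mul_left _ h3
      have h5 : k * m = m * k := mul_comm _ _
      omega
    · by_contra hcon
      push Not at hcon
      have h3 : k + 1 ≤ n / m := by omega
      have h4 : m * (k + 1) ≤ m * (n / m) := Nat.mul_le_mul_left _ h3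
      have h5 : m * (k + 1) = k * m + m := by ring
      omega
  exact_mod_cast this

theorem mk_le (hm : 0 < m) {n : ℕ} (hn : 1 ≤ n) : mk m n ≤ 1 + (n - 1 : ℝ) / m := by
  have hm0 : (0 : ℝ) < m := by exact_mod_cast hm
  unfold mk
  have h1 := Nat.div_add_mod n m
  have h1' : (m : ℝ) * ((n / m : ℕ) : ℝ) + ((n % m : ℕ) : ℝ) = n := by exact_mod_cast h1
  rw [← sub_le_iff_le_add', le_div_iff₀ hm0]
  have hm1 : (1 : ℝ) ≤ m := by exact_mod_cast hm
  split_ifs with h2
  · have h3 : (1 : ℝ) ≤ ((n % m : ℕ) : ℝ) := by exact_mod_cast h2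
    push_cast
    nlinarith
  · have h3 : n % m = 0 := by omega
    rw [h3] at h1'
    push_cast at h1' ⊢
    nlinarith

end Pool.Agent.H78.Sched
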