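import Pool.Agent.H78.Sched.UnitAlg

namespace Pool.Agent.H78.Sched

variable {m : ℕ}

theorem penalty_cons (I : List (ℝ × ℝ)) (α : List (Option (Fin m))) (j : ℝ × ℝ)
    (d : Option (Fin m)) :
    penalty (j :: I) (d :: α) = (if d = none then j.2 else 0) + penalty I α := by
  simp [penalty]

theorem term_main {c δ p0 : ℝ} (hc : 1 < c) (hδ : 0 < δ) (hp0 : δ ≤ p0) :
    ∀ (I : List (ℝ × ℝ)) (α σ : List (Option (Fin m))), α.length = I.length →
      σ.length = I.length → (∀ j ∈ I, 0 < j.2) →
      (∀ x ∈ List.zip I α, x.2 ≠ none → p0 ≤ x.1.2) →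
      c * rsum δ (fun z => min z p0) I α - rsum δ (fun z => z) I α +
        c * p0 * ((na α : ℝ) - na σ) ≤ c * penalty I σ - penalty I α := by
  intro I
  induction I with
  | nil =>
    intro α σ h1 h2 _ _
    have e1 : α = [] := List.length_eq_zero_iff.1 h1
    have e2 : σ = [] := List.length_eq_zero_iff.1 h2
    subst e1; subst e2
    simp [rsum, penalty, na_nil]
  | cons j I ih =>
    intro α σ h1 h2 hI hA
    cases α with
    | nil => simp at h1
    | cons d α =>
    cases σ with
    | nil => simp at h2
    | cons e σ =>
    have h3 := ih α σ (by simpa using h1) (by simpa using h2)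
      (fun x hx => hI x (List.mem_cons_of_mem _ hx))
      (fun x hx => hA x (by rw [List.zip_cons_cons]; exact List.mem_cons_of_mem _ hx))
    have h4 : d ≠ none → p0 ≤ j.2 := fun hd =>
      hA (j, d) (by rw [List.zip_cons_cons]; exact List.mem_cons_self) hd
    have h5 := hI j List.mem_cons_self
    rw [rsum_cons, rsum_cons, penalty_cons, penalty_cons, na_cons, na_cons]
    push_cast
    have hmin1 := min_le_left j.2 p0
    have hmin2 := min_le_right j.2 p0
    have hc0 : 0 < c := by linarith
    have hcp : 0 < c * p0 := by have : 0 < p0 := by linarith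
                                positivity
    have hm1 : c * min j.2 p0 ≤ c * j.2 := mul_le_mul_of_nonneg_left hmin1 hc0.le
    have hm2 : c * min j.2 p0 ≤ c * p0 := mul_le_mul_of_nonneg_left hmin2 hc0.le
    have hcj : j.2 < c * j.2 := by nlinarith
    have hcδ : δ < c * p0 := by nlinarith
    by_cases hd : d = none
    · by_cases he : e = none
      · by_cases hj : δ < j.2
        · simp only [hd, he, hj, and_self, if_true]
          linarith
        · simp only [hd, he, hj, and_false, if_false, if_true]
          linarith
      · by_cases hj : δ < j.2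
        · simp only [hd, he, hj, and_self, if_true, if_false]
          linarith
        · simp only [hd, he, hj, and_false, if_false, if_true]
          push Not at hj
          linarith
    · have h6 := h4 hd
      have h7 : c * p0 ≤ c * j.2 := mul_le_mul_of_nonneg_left h6 hc0.le
      by_cases he : e = none
      · simp only [hd, he, false_and, if_false, if_true]
        linarith
      · simp only [hd, he, false_and, if_false]
        linarith

theorem term_zero {c δ p0 : ℝ} (hc : 1 < c) :
    ∀ (I : List (ℝ × ℝ)) (α σ : List (Option (Fin m))), α.length = I.length →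
      σ.length = I.length → (∀ j ∈ I, 0 < j.2) → na σ = 0 →
      (∀ x ∈ List.zip I α, x.2 ≠ none → p0 ≤ x.1.2) →
      (c - 1) * rsum δ (fun z => z) I α + c * p0 * (na α : ℝ) ≤
        c * penalty I σ - penalty I α := by
  intro I
  induction I with
  | nil =>
    intro α σ h1 h2 _ _ _
    have e1 : α = [] := List.length_eq_zero_iff.1 h1
    have e2 : σ = [] := List.length_eq_zero_iff.1 h2
    subst e1; subst e2
    simp [rsum, penalty, na_nil]
  | cons j I ih =>
    intro α σ h1 h2 hI hσ hA
    cases α with
    | nil => simp at h1
    | cons d α =>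
    cases σ with
    | nil => simp at h2
    | cons e σ =>
    rw [na_cons] at hσ
    have he : e = none := by
      by_contra he
      rw [if_neg he] at hσ
      omega
    rw [if_pos he] at hσ
    have h3 := ih α σ (by simpa using h1) (by simpa using h2)
      (fun x hx => hI x (List.mem_cons_of_mem _ hx)) (by omega)
      (fun x hx => hA x (by rw [List.zip_cons_cons]; exact List.mem_cons_of_mem _ hx))
    have h4 : d ≠ none → p0 ≤ j.2 := fun hd =>
      hA (j, d) (by rw [List.zip_cons_cons]; exact List.mem_cons_self) hd
    have h5 := hI j List.mem_cons_self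
    rw [rsum_cons, penalty_cons, penalty_cons, na_cons]
    push_cast
    have hcj : j.2 < c * j.2 := by nlinarith
    by_cases hd : d = none
    · by_cases hj : δ < j.2
      · simp only [hd, he, hj, and_self, if_true]
        linarith
      · simp only [hd, he, hj, and_false, if_false, if_true]
        linarith
    · have h6 := h4 hd
      have h7 : c * p0 ≤ c * j.2 := mul_le_mul_of_nonneg_left h6 (by linarith)
      simp only [hd, he, false_and, if_false, if_true]
      linarith

theorem term_small {c δ : ℝ} (hc : 1 < c) (hδ : 0 < δ) :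
    ∀ (I : List (ℝ × ℝ)) (α σ : List (Option (Fin m))), α.length = I.length →
      σ.length = I.length → (∀ j ∈ I, 0 < j.2) →
      - rsum δ (fun z => z) I α - δ * (na σ : ℝ) ≤ c * penalty I σ - penalty I α := by
  intro I
  induction I with
  | nil =>
    intro α σ h1 h2 _
    have e1 : α = [] := List.length_eq_zero_iff.1 h1
    have e2 : σ = [] := List.length_eq_zero_iff.1 h2
    subst e1; subst e2
    simp [rsum, penalty, na_nil]
  | cons j I ih =>
    intro α σ h1 h2 hI
    cases α with
    | nil => simp at h1
    | cons d α =>
    cases σ with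
    | nil => simp at h2
    | cons e σ =>
    have h3 := ih α σ (by simpa using h1) (by simpa using h2)
      (fun x hx => hI x (List.mem_cons_of_mem _ hx))
    have h5 := hI j List.mem_cons_self
    rw [rsum_cons, penalty_cons, penalty_cons, na_cons]
    push_cast
    have hcj : j.2 < c * j.2 := by nlinarith
    by_cases hd : d = none
    · by_cases he : e = none
      · by_cases hj : δ < j.2
        · simp only [hd, he, hj, and_self, if_true]
          linarith
        · simp only [hd, he, hj, and_false, if_false, if_true]
          linarith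
      · by_cases hj : δ < j.2
        · simp only [hd, he, hj, and_self, if_true, if_false]
          linarith
        · simp only [hd, he, hj, and_false, if_false, if_true]
          push Not at hj
          linarith
    · by_cases he : e = none
      · simp only [hd, he, false_and, if_false, if_true]
        linarith
      · simp only [hd, he, false_and, if_false]
        linarith

/-- The invariants of the algorithm. -/
structure UInv (hm : 0 < m) (c b Zi K ζ δ : ℝ) (I : List (ℝ × ℝ)) : Prop where
  gt : ∀ z ∈ (stt c δ I).1, δ < z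
  invJ : InvJ c b Zi (stt c δ I).1
  invK : InvK c K (stt c δ I).1
  bound : (stt c δ I).1.sum - (c - 2) ≤ max Zi (2 * ζ)
  accepted : 1 ≤ (stt c δ I).2 → ∃ p0, δ < p0 ∧ 1 ≤ (c - 1) * (stt c δ I).1.sum + c * p0 ∧
    (stt c δ I).1.sum - (c - 2) ≤ c * (p0 + fs (stt c δ I).1 p0) ∧
    ∀ x ∈ List.zip I (run (alg hm c δ) I), x.2 ≠ none → p0 ≤ x.1.2

theorem uinv_nil {c b Zi K g ζ δ : ℝ} (P : Par c b Zi K g) (hm : 0 < m) :
    UInv hm c b Zi K ζ δ [] := by
  refine ⟨by simp [stt_nil], ?_, ?_, ?_, ?_⟩
  · rw [stt_nil]; exact invJ_nil P
  · rw [stt_nil]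
    intro h
    simp only [List.sum_nil] at h
    have := P.c_gt
    linarith
  · rw [stt_nil]
    simp only [List.sum_nil]
    have h1 := P.c_gt
    have h2 := P.Zi_pos
    have h3 := le_max_left Zi (2 * ζ)
    linarith
  · intro h; simp [stt_nil] at h

theorem uinv_snoc {c b Zi K g ζ δ : ℝ} (P : Par c b Zi K g) (hm : 0 < m) (hδ : 0 < δ)
    (hζ : ∀ Z : ℝ, 0 < Z → c * δ * Z ^ c ≤ K * Z → Z ≤ ζ) {I : List (ℝ × ℝ)}
    (h : UInv hm c b Zi K ζ δ I) (j : ℝ × ℝ) : UInv hm c b Zi K ζ δ (I ++ [j]) := by
  have hc := P.c_gt
  have hpos : Pos (stt c δ I).1 := fun z hz => hδ.trans (h.gt z hz)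
  have hzip : List.zip (I ++ [j]) (run (alg hm c δ) (I ++ [j])) =
      List.zip I (run (alg hm c δ) I) ++ [(j, dcs hm c δ (stt c δ I) j.2)] := by
    rw [run_alg_snoc, List.zip_append (by simp)]
    simp
  by_cases hacc : Acc c δ (stt c δ I).1 j.2
  · -- acceptance
    have hst : stt c δ (I ++ [j]) = ((stt c δ I).1, (stt c δ I).2 + 1) := by
      rw [stt_snoc]; unfold stp; rw [if_pos hacc]
    refine ⟨?_, ?_, ?_, ?_, ?_⟩
    · rw [hst]; exact h.gt
    · rw [hst]; exact h.invJ
    · rw [hst]; exact h.invK
    · rw [hst]; exact h.bound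
    · intro _
      rw [hst, hzip]
      simp only
      obtain ⟨a1, a2, a3⟩ := hacc
      by_cases h1 : 1 ≤ (stt c δ I).2
      · obtain ⟨p0, b1, b2, b3, b4⟩ := h.accepted h1
        rcases le_total p0 j.2 with hle | hle
        · refine ⟨p0, b1, b2, b3, ?_⟩
          intro x hx hne
          rw [List.mem_append, List.mem_singleton] at hx
          rcases hx with hx | hx
          · exact b4 x hx hne
          · rw [hx]; exact hle
        · refine ⟨j.2, a1, a2, a3, ?_⟩
          intro x hx hne
          rw [List.mem_append, List.mem_singleton] at hx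
          rcases hx with hx | hx
          · exact hle.trans (b4 x hx hne)
          · rw [hx]
      · refine ⟨j.2, a1, a2, a3, ?_⟩
        have hna := na_run hm c δ I
        have hz : na (run (alg hm c δ) I) = 0 := by omega
        intro x hx hne
        rw [List.mem_append, List.mem_singleton] at hx
        rcases hx with hx | hx
        · exfalso
          have h2 : x.2 ∈ run (alg hm c δ) I := (List.of_mem_zip hx).2
          unfold na at hz
          rw [List.countP_eq_zero] at hz
          have := hz _ h2
          cases hx2 : x.2 with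
          | none => exact hne hx2
          | some k => rw [hx2] at this; simp at this
        · rw [hx]
  · by_cases hd : δ < j.2
    · -- rejection of a large penalty
      have hj0 : 0 < j.2 := hδ.trans hd
      have hst : stt c δ (I ++ [j]) = (j.2 :: (stt c δ I).1, (stt c δ I).2) := by
        rw [stt_snoc]; unfold stp; rw [if_neg hacc, if_pos hd]
      have hcase : (c - 1) * (stt c δ I).1.sum + c * j.2 < 1 ∨
          (1 ≤ (c - 1) * (stt c δ I).1.sum + c * j.2 ∧
            c * (j.2 + fs (stt c δ I).1 j.2) < (stt c δ I).1.sum - (c - 2)) := by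
        by_contra hcon
        push Not at hcon
        exact hacc ⟨hd, hcon.1, hcon.2 hcon.1⟩
      have hpos' : Pos (j.2 :: (stt c δ I).1) := by
        intro z hz
        rw [List.mem_cons] at hz
        rcases hz with rfl | hz
        · exact hj0
        · exact hpos z hz
      have hfs := fs_nonneg hpos hj0.le
      have hJ' : InvJ c b Zi (j.2 :: (stt c δ I).1) := by
        apply invJ_cons P hpos hj0 h.invJ
        rcases hcase with h1 | h1
        · exact Or.inl h1
        · right
          have := h1.2
          nlinarith
      have hsum : (j.2 :: (stt c δ I).1).sum = j.2 + (stt c δ I).1.sum := List.sum_cons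
      have hI1 : (c - 1) * (stt c δ I).1.sum + c * j.2 < 1 →
          (j.2 :: (stt c δ I).1).sum - (c - 2) ≤ Zi := by
        intro h1
        rw [hsum, P.Zi_eq]
        have hb := P.b_eq
        -- X + z ≤ b
        have h2 : (c - 1) * ((stt c δ I).1.sum) ≤ 1 := by nlinarith
        have h3 : c * ((c - 1) * (j.2 + (stt c δ I).1.sum)) ≤ c * 1 := by nlinarith
        have h4 : (c - 1) * (j.2 + (stt c δ I).1.sum) ≤ 1 :=
          le_of_mul_le_mul_left h3 (by linarith)
        have h5 : (j.2 + (stt c δ I).1.sum) * (c - 1) ≤ b * (c - 1) := by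
          rw [hb]; linarith
        have h6 : j.2 + (stt c δ I).1.sum ≤ b := le_of_mul_le_mul_right h5 (by linarith)
        linarith
      refine ⟨?_, ?_, ?_, ?_, ?_⟩
      · rw [hst]
        intro z hz
        simp only [List.mem_cons] at hz
        rcases hz with rfl | hz
        · exact hd
        · exact h.gt z hz
      · rw [hst]; exact hJ'
      · rw [hst]
        rcases hcase with h1 | h1
        · exact invK_of_invJ P hpos' hJ' (hI1 h1)
        · exact invK_cons P hpos hj0 h.invK h1.2
      · rw [hst]
        rcases hcase with h1 | h1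
        · exact (hI1 h1).trans (le_max_left _ _)
        · refine le_trans ?_ (le_max_right _ _)
          rw [hsum]
          set Z : ℝ := (stt c δ I).1.sum - (c - 2) with hZ
          have hZpos : 0 < Z := by nlinarith [h1.2]
          have hfδ : c * (δ + fs (stt c δ I).1 δ) ≤ Z := by
            have := fs_mono (stt c δ I).1 hd.le
            nlinarith [h1.2]
          have hK := h.invK hZpos δ hδ hfδ
          rw [← hZ] at hK
          have hKp := P.K_pos
          have h2 : c * δ * Z ^ c ≤ K * Z := by
            refine hK.trans (mul_le_mul_of_nonneg_left ?_ hKp.le)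
            nlinarith
          have h3 := hζ Z hZpos h2
          have h4 : j.2 ≤ Z := by nlinarith [h1.2]
          linarith
      · intro h1
        rw [hst] at h1 ⊢
        rw [hzip]
        simp only at h1 ⊢
        obtain ⟨p0, b1, b2, b3, b4⟩ := h.accepted h1
        have hp0 : 0 < p0 := hδ.trans b1
        have hlt : j.2 < p0 := by
          rcases hcase with h2 | h2
          · by_contra hcon
            push Not at hcon
            nlinarith
          · by_contra hcon
            push Not at hcon
            have h3 := fs_mono (stt c δ I).1 hcon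
            nlinarith [h2.2]
        refine ⟨p0, b1, ?_, ?_, ?_⟩
        · rw [List.sum_cons]; nlinarith
        · rw [List.sum_cons, fs_cons, min_eq_left hlt.le]
          nlinarith
        · intro x hx hne
          rw [List.mem_append, List.mem_singleton] at hx
          rcases hx with hx | hx
          · exact b4 x hx hne
          · exfalso
            rw [hx] at hne
            apply hne
            simp only [dcs, if_neg hacc]
    · -- rejection of a small penalty
      have hst : stt c δ (I ++ [j]) = stt c δ I := by
        rw [stt_snoc]; unfold stp; rw [if_neg hacc, if_neg hd]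
      refine ⟨?_, ?_, ?_, ?_, ?_⟩
      · rw [hst]; exact h.gt
      · rw [hst]; exact h.invJ
      · rw [hst]; exact h.invK
      · rw [hst]; exact h.bound
      · intro h1
        rw [hst] at h1 ⊢
        rw [hzip]
        obtain ⟨p0, b1, b2, b3, b4⟩ := h.accepted h1
        refine ⟨p0, b1, b2, b3, ?_⟩
        intro x hx hne
        rw [List.mem_append, List.mem_singleton] at hx
        rcases hx with hx | hx
        · exact b4 x hx hne
        · exfalso
          rw [hx] at hne
          apply hne
          simp only [dcs, if_neg hacc]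

theorem uinv {c b Zi K g ζ δ : ℝ} (P : Par c b Zi K g) (hm : 0 < m) (hδ : 0 < δ)
    (hζ : ∀ Z : ℝ, 0 < Z → c * δ * Z ^ c ≤ K * Z → Z ≤ ζ) (I : List (ℝ × ℝ)) :
    UInv hm c b Zi K ζ δ I := by
  induction I using List.reverseRecOn with
  | nil => exact uinv_nil P hm
  | append_singleton I j ih => exact uinv_snoc P hm hδ hζ ih j

/-- The makespan of an assignment which accepts many unit jobs. -/
theorem makespan_ge_ceil (hm : 0 < m) {I : List (ℝ × ℝ)} (hI : ∀ j ∈ I, j.1 = 1)
    {σ : List (Option (Fin m))} (h : σ.length = I.length) {k : ℕ} (hk : k = 0 ∨ (k - 1) * m < na σ) :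
    (k : ℝ) ≤ ⨆ i : Fin m, load I σ i := by
  rcases hk with rfl | hk
  · apply le_trans (le_of_eq Nat.cast_zero)
    apply Real.iSup_nonneg
    intro i
    rw [load_unit hI h]
    positivity
  · rcases Nat.eq_zero_or_pos k with rfl | hk0
    · apply le_trans (le_of_eq Nat.cast_zero)
      apply Real.iSup_nonneg
      intro i
      rw [load_unit hI h]
      positivity
    · have h1 := na_add_count σ
      have h2 := makespan_ge hI h (k - 1) (by omega)
      have h3 : (((k - 1 : ℕ) : ℝ) + 1) = k := by
        have : k - 1 + 1 = k := by omega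
        exact_mod_cast this
      rwa [h3] at h2

/-- The algorithm is `c`-competitive on unit jobs. -/
theorem unit_competitive {c b Zi K g ζ δ β : ℝ} (P : Par c b Zi K g) (hm : 0 < m)
    (hβ : 2 ≤ c * β) (hβ1 : β < 1) (hδ : δ * m = β)
    (hζ : ∀ Z : ℝ, 0 < Z → c * δ * Z ^ c ≤ K * Z → Z ≤ ζ) (hZi : Zi ≤ 1 - β)
    (hζ1 : 2 * ζ ≤ 1 - β) {I : List (ℝ × ℝ)} (hI : ∀ j ∈ I, j.1 = 1 ∧ 0 < j.2) :
    cost I (run (alg hm c δ) I) ≤ c * opt m I := by
  have hc := P.c_gt
  have hc3 := P.c_lt
  have hm0 : (0 : ℝ) < m := by exact_mod_cast hm
  have hm1 : (1 : ℝ) ≤ m := by exact_mod_cast hm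
  have hβ0 : 0 < β := by nlinarith
  have hδ0 : 0 < δ := by
    by_contra hcon
    push Not at hcon
    nlinarith
  have hI1 : ∀ j ∈ I, j.1 = 1 := fun j hj => (hI j hj).1
  have hI2 : ∀ j ∈ I, 0 < j.2 := fun j hj => (hI j hj).2
  have hUI := uinv P hm hδ0 hζ I
  have hna := na_run hm c δ I
  set α := run (alg hm c δ) I with hα
  have hαl : α.length = I.length := by rw [hα]; simp
  set N : ℕ := (stt c δ I).2 with hN
  set X : ℝ := (stt c δ I).1.sum with hX
  have hXid : rsum δ (fun z => z) I α = X := rsum_id hm c δ I
  have hpos : Pos (stt c δ I).1 := fun z hz => hδ0.trans (hUI.gt z hz)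
  have hX0 : 0 ≤ X := sum_nonneg' hpos
  have hms := makespan_run hm c δ hI1
  rw [← hα, ← hN] at hms
  have hbound : X - (c - 2) ≤ 1 - β := hUI.bound.trans (max_le hZi hζ1)
  -- it suffices to compare with every assignment
  have key : ∀ σ : List (Option (Fin m)), σ.length = I.length → cost I α ≤ c * cost I σ := by
    intro σ hσ
    set κ : ℕ := (na σ + m - 1) / m with hκ
    have hκ1 : na σ ≤ κ * m := by
      have h1 := Nat.div_add_mod (na σ + m - 1) m
      have h2 : (na σ + m - 1) % m < m := Nat.mod_lt _ hm
      have h3 : κ * m = m * ((na σ + m - 1) / m) := by rw [hκ, mul_comm]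
      omega
    have hκ2 : κ = 0 ∨ (κ - 1) * m < na σ := by
      rcases Nat.eq_zero_or_pos κ with h | h
      · exact Or.inl h
      · right
        have h1 := Nat.div_add_mod (na σ + m - 1) m
        rw [← hκ] at h1
        obtain ⟨κ', hκ'⟩ : ∃ κ', κ = κ' + 1 := ⟨κ - 1, by omega⟩
        rw [hκ'] at h1 ⊢
        have h3 : m * (κ' + 1) = κ' * m + m := by ring
        simp only [Nat.add_sub_cancel]
        omega
    have hmσ := makespan_ge_ceil hm hI1 hσ hκ2
    have hkm : (na σ : ℝ) ≤ κ * m := by exact_mod_cast hκ1
    have hcostσ : c * (κ + penalty I σ) ≤ c * cost I σ := by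
      apply mul_le_mul_of_nonneg_left _ (by linarith)
      unfold cost
      linarith
    refine le_trans ?_ hcostσ
    have hcostα : cost I α ≤ mk m N + penalty I α := by
      unfold cost
      linarith
    refine hcostα.trans ?_
    rcases Nat.eq_zero_or_pos κ with hk0 | hk1
    · -- nothing is accepted by the other assignment
      have hna0 : na σ = 0 := by rw [hk0] at hκ1; omega
      rw [hk0]
      simp only [Nat.cast_zero, zero_add]
      rcases Nat.eq_zero_or_pos N with hN0 | hN1
      · have h1 := term_zero (δ := δ) (p0 := 0) (by linarith : 1 < c) I α σ hαl hσ hI2 hna0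
          (fun x hx _ => (hI2 _ (List.of_mem_zip hx).1).le)
        rw [hXid] at h1
        have h2 : mk m N ≤ (0 : ℕ) := mk_le_of_le hm (by omega)
        simp only [Nat.cast_zero] at h2
        nlinarith
      · obtain ⟨p0, b1, b2, b3, b4⟩ := hUI.accepted hN1
        have h1 := term_zero (δ := δ) (by linarith : 1 < c) I α σ hαl hσ hI2 hna0 b4
        rw [hXid, hna] at h1
        have hp0 : 0 < p0 := hδ0.trans b1
        have hNr : (1 : ℝ) ≤ N := by exact_mod_cast hN1
        by_cases hNm : N ≤ m
        · have h2 : mk m N ≤ (1 : ℕ) := mk_le_of_le hm (by omega)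
          simp only [Nat.cast_one] at h2
          have h3 : c * p0 * 1 ≤ c * p0 * N :=
            mul_le_mul_of_nonneg_left hNr (by positivity)
          rw [← hX] at b2
          linarith
        · push Not at hNm
          have h2 := mk_le hm hN1
          have hNm' : (m : ℝ) ≤ N := by exact_mod_cast hNm.le
          have h3 : c * δ * N ≤ c * p0 * N := by
            apply mul_le_mul_of_nonneg_right _ (by linarith)
            exact mul_le_mul_of_nonneg_left b1.le (by linarith)
          have h4 : 1 + (N - 1 : ℝ) / m ≤ c * δ * N := by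
            have h5 : c * δ * N = c * β * N / m := by
              rw [← hδ]; field_simp
            have h6 : 1 + (N - 1 : ℝ) / m = (m + (N - 1)) / m := by field_simp
            rw [h5, h6]
            apply div_le_div_of_nonneg_right _ hm0.le
            nlinarith
          nlinarith
    · have hk1r : (1 : ℝ) ≤ κ := by exact_mod_cast hk1
      by_cases hNκ : N ≤ κ * m
      · have h1 := term_small (by linarith : 1 < c) hδ0 I α σ hαl hσ hI2
        rw [hXid] at h1
        have h2 : mk m N ≤ κ := mk_le_of_le hm hNκ
        have h3 : δ * (na σ : ℝ) ≤ β * κ := by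
          calc δ * (na σ : ℝ) ≤ δ * (κ * m) := mul_le_mul_of_nonneg_left hkm hδ0.le
            _ = (δ * m) * κ := by ring
            _ = β * κ := by rw [hδ]
        have h4 : (c - 1 - β) * 1 ≤ (c - 1 - β) * κ :=
          mul_le_mul_of_nonneg_left hk1r (by linarith)
        nlinarith
      · push Not at hNκ
        have hN1 : 1 ≤ N := by omega
        obtain ⟨p0, b1, b2, b3, b4⟩ := hUI.accepted hN1
        have hp0 : 0 < p0 := hδ0.trans b1
        have h1 := term_main (by linarith : 1 < c) hδ0 b1.le I α σ hαl hσ hI2 b4
        rw [hXid, hna, rsum_min] at h1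
        have h2 := mk_le hm hN1
        rw [← hX] at b3
        have hNκr : (κ : ℝ) * m + 1 ≤ N := by exact_mod_cast hNκ
        have h3 : c * p0 * ((N : ℝ) - κ * m) ≤ c * p0 * ((N : ℝ) - na σ) :=
          mul_le_mul_of_nonneg_left (by linarith) (by positivity)
        have h4 : c * δ * ((N : ℝ) - κ * m - 1) ≤ c * p0 * ((N : ℝ) - κ * m - 1) := by
          apply mul_le_mul_of_nonneg_right _ (by linarith)
          exact mul_le_mul_of_nonneg_left b1.le (by linarith)
        have h5 : 1 + (N - 1 : ℝ) / m ≤ 1 + κ + c * δ * ((N : ℝ) - κ * m - 1) := by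
          have h6 : (N - 1 : ℝ) / m = κ + ((N : ℝ) - κ * m - 1) / m := by field_simp; ring
          have h7 : ((N : ℝ) - κ * m - 1) / m ≤ c * δ * ((N : ℝ) - κ * m - 1) := by
            rw [div_le_iff₀ hm0]
            have h8 : c * δ * ((N : ℝ) - κ * m - 1) * m = (c * β) * ((N : ℝ) - κ * m - 1) := by
              rw [← hδ]; ring
            rw [h8]
            have h9 : 0 ≤ (N : ℝ) - κ * m - 1 := by linarith
            nlinarith
          linarith
        have h10 : (c - 1) * 1 ≤ (c - 1) * (κ : ℝ) :=
          mul_le_mul_of_nonneg_left hk1r (by linarith)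
        linarith
  -- conclusion
  have hopt : cost I α / c ≤ opt m I := by
    unfold opt
    apply le_csInf
    · exact ⟨_, List.replicate I.length none, by simp, rfl⟩
    · rintro x ⟨σ, hσ, rfl⟩
      rw [div_le_iff₀ (by linarith)]
      have := key σ hσ
      linarith
  rw [div_le_iff₀ (by linarith)] at hopt
  linarith

end Pool.Agent.H78.Sched
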