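import Pool.Agent.H78.Sched.UnitCost
import Pool.Agent.H78.Sched.Main

namespace Pool.Agent.H78.Sched

open Real Filter Asymptotics

/-- The upper bound for a fixed large `m`. -/
theorem unit_upper_of_large {m : ℕ} (hm : (1000 : ℝ) ≤ m) (hlog : log m ≤ (m : ℝ) ^ (1 / 10 : ℝ)) :
    unitR m ≤ 1 + goldenRatio - 1 / 100 * (log m / m) ^ (1 / (1 + goldenRatio)) := by
  have hm0 : (0 : ℝ) < m := by linarith
  have hmn : 0 < m := by exact_mod_cast hm0
  have hφ1 : goldenRatio < 1.6181 := by
    have h := goldenRatio_sq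
    nlinarith [goldenRatio_pos]
  have hφ2 : 1.618 < goldenRatio := by
    have h := goldenRatio_sq
    nlinarith [goldenRatio_pos]
  have hsq := goldenRatio_sq
  set ψ : ℝ := 1 / (1 + goldenRatio) with hψ
  have hψ0 : 0 < ψ := by positivity
  have hψ1 : ψ ≤ 2 / 5 := by
    rw [hψ, div_le_iff₀ (by linarith)]; linarith
  have hψ2 : 1 / 3 ≤ ψ := by
    rw [hψ, le_div_iff₀ (by linarith)]; linarith
  have hlogm1 : 1 ≤ log m := by
    have h1 : log 16 ≤ log m := log_le_log (by norm_num) (by linarith)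
    have h2 : log 16 = 4 * log 2 := by
      rw [show (16 : ℝ) = 2 ^ 4 by norm_num, log_pow]; norm_num
    have h3 := log_two_gt_d9
    linarith
  set v : ℝ := log m / m with hv
  have hv0 : 0 < v := by rw [hv]; positivity
  have hvle : v ≤ (m : ℝ) ^ (-(9 / 10) : ℝ) := by
    rw [hv, div_le_iff₀ hm0]
    calc log m ≤ (m : ℝ) ^ (1 / 10 : ℝ) := hlog
      _ = (m : ℝ) ^ (-(9 / 10) : ℝ) * m := by
          rw [← rpow_add_one hm0.ne']
          norm_num
  have hnlv : 9 / 10 * log m ≤ - log v := by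
    have h1 : log v ≤ log ((m : ℝ) ^ (-(9 / 10) : ℝ)) := log_le_log hv0 hvle
    rw [log_rpow hm0] at h1
    linarith
  set u : ℝ := v ^ ψ with hu
  have hu0 : 0 < u := rpow_pos_of_pos hv0 _
  have hlogu : log u = ψ * log v := by rw [hu, log_rpow hv0]
  have hnlu : 3 / 10 * log m ≤ - log u := by
    rw [hlogu]
    have := mul_le_mul hψ2 hnlv (by linarith) hψ0.le
    linarith
  have hule : u ≤ (m : ℝ) ^ (-(3 / 10) : ℝ) := by
    have h1 : log u ≤ log ((m : ℝ) ^ (-(3 / 10) : ℝ)) := by
      rw [log_rpow hm0]; linarith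
    exact (log_le_log_iff hu0 (by positivity)).1 h1
  have hulog : u * log m ≤ 1 := by
    calc u * log m ≤ (m : ℝ) ^ (-(3 / 10) : ℝ) * (m : ℝ) ^ (1 / 10 : ℝ) := by
          apply mul_le_mul hule hlog (by linarith) (by positivity)
      _ = (m : ℝ) ^ (-(1 / 5) : ℝ) := by
          rw [← rpow_add hm0]; norm_num
      _ ≤ 1 := rpow_le_one_of_one_le_of_nonpos (by linarith) (by norm_num)
  have hu1 : u ≤ 1 :=
    hule.trans (rpow_le_one_of_one_le_of_nonpos (by linarith) (by norm_num))
  -- the parameters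
  set γ : ℝ := 1 / 100 * u with hγ
  have hγ0 : 0 < γ := by positivity
  have hγ1 : γ ≤ 1 / 100 := by rw [hγ]; linarith
  set c : ℝ := 1 + goldenRatio - γ with hc
  have hc25 : 2.6 < c := by rw [hc]; linarith
  have hc27 : c < 2.62 := by rw [hc]; linarith
  set b : ℝ := 1 / (c - 1) with hb
  have hbeq : b * (c - 1) = 1 := by rw [hb, one_div, inv_mul_cancel₀ (by linarith)]
  have hb6 : 0.6 ≤ b := by
    rw [hb, le_div_iff₀ (by linarith)]; linarith
  set Zi : ℝ := b - (c - 2) with hZi
  have hZi' : Zi * (c - 1) = γ * (c - 2 + goldenRatio) := by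
    rw [hZi, sub_mul, hbeq, hc]
    linear_combination (-1) * hsq
  have hZi0 : 0 < Zi := by
    by_contra hcon
    push Not at hcon
    have h1 : Zi * (c - 1) ≤ 0 := mul_nonpos_of_nonpos_of_nonneg hcon (by linarith)
    have h2 : 0 < γ * (c - 2 + goldenRatio) := mul_pos hγ0 (by linarith)
    linarith
  have hZi1 : Zi ≤ 3 / 2 * γ := by
    have h1 : γ * (c - 2 + goldenRatio) ≤ γ * (3 / 2 * (c - 1)) :=
      mul_le_mul_of_nonneg_left (by linarith) hγ0.le
    have h2 : Zi * (c - 1) ≤ (3 / 2 * γ) * (c - 1) := by rw [hZi']; linarith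
    exact le_of_mul_le_mul_right h2 (by linarith)
  have hZi2 : Zi ≤ 3 / 200 * u := by rw [hγ] at hZi1; linarith
  set g : ℝ := log (b / (2 * Zi)) / log c with hg
  have hlogc0 : 0 < log c := log_pos (by linarith)
  have hlogc1 : log c ≤ 1 := by
    have h1 : log c ≤ log (exp 1) := by
      apply log_le_log (by linarith)
      have := exp_one_gt_d9
      linarith
    rwa [log_exp] at h1
  have hglow : 3 / 10 * log m ≤ g := by
    have h1 : 1 / u ≤ b / (2 * Zi) := by
      rw [div_le_div_iff₀ hu0 (by positivity)]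
      have := mul_le_mul_of_nonneg_right hb6 hu0.le
      linarith
    have h2 : - log u ≤ log (b / (2 * Zi)) := by
      rw [← log_inv, ← one_div]
      exact log_le_log (by positivity) h1
    rw [hg, le_div_iff₀ hlogc0]
    have h3 : 3 / 10 * log m * log c ≤ 3 / 10 * log m * 1 :=
      mul_le_mul_of_nonneg_left hlogc1 (by linarith)
    linarith
  have hg0 : 0 < g := by linarith
  have P : Par c b Zi (Zi ^ c / g) g := by
    refine ⟨by linarith, by linarith, hbeq, hZi, hZi0, hg0, by field_simp, ?_⟩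
    intro n hn
    rw [hg, div_le_iff₀ hlogc0, ← log_pow]
    apply log_le_log (by positivity)
    rw [div_le_iff₀ (by positivity)]
    linarith
  -- the main parameter estimate
  have hpow : (m : ℝ) * Zi ^ c ≤ 7 / 10000 * log m := by
    have h1 : Zi ^ c ≤ (3 / 200 * u) ^ c := rpow_le_rpow hZi0.le hZi2 (by linarith)
    have h2 : (3 / 200 * u) ^ c = (3 / 200 : ℝ) ^ c * u ^ c := mul_rpow (by norm_num) hu0.le
    have h3 : (3 / 200 : ℝ) ^ c ≤ (3 / 200 : ℝ) ^ (2 : ℝ) :=
      rpow_le_rpow_of_exponent_ge (by norm_num) (by norm_num) (by linarith)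
    have h4 : u ^ c ≤ 3 * v := by
      have h5 : u ^ c = v ^ (ψ * c) := by rw [hu, ← rpow_mul hv0.le]
      have h6 : ψ * c = 1 - ψ * γ := by
        rw [hc, hψ]; field_simp
      rw [h5, h6, rpow_sub hv0, rpow_one, div_eq_mul_inv, ← rpow_neg hv0.le]
      have h7 : v ^ (-(ψ * γ)) ≤ 3 := by
        rw [rpow_def_of_pos hv0]
        have h8 : log v * -(ψ * γ) ≤ 1 := by
          have h9 : - log v ≤ log m := by
            rw [hv, log_div (by linarith) hm0.ne']
            have := log_nonneg hlogm1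
            linarith
          have h10 : ψ * γ * (- log v) ≤ ψ * γ * log m :=
            mul_le_mul_of_nonneg_left h9 (by positivity)
          have h11 : ψ * γ * log m ≤ 1 := by
            have : ψ * γ * log m = ψ / 100 * (u * log m) := by rw [hγ]; ring
            rw [this]
            have h12 : ψ / 100 * (u * log m) ≤ ψ / 100 * 1 :=
              mul_le_mul_of_nonneg_left hulog (by positivity)
            linarith
          linarith
        calc exp (log v * -(ψ * γ)) ≤ exp 1 := exp_le_exp.2 h8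
          _ ≤ 3 := by have := exp_one_lt_d9; linarith
      calc v * v ^ (-(ψ * γ)) ≤ v * 3 := mul_le_mul_of_nonneg_left h7 hv0.le
        _ = 3 * v := by ring
    have h12 : (3 / 200 : ℝ) ^ (2 : ℝ) = 9 / 40000 := by norm_num
    rw [h12] at h3
    have h13 : Zi ^ c ≤ 9 / 40000 * (3 * v) := by
      rw [h2] at h1
      refine h1.trans ?_
      apply mul_le_mul h3 h4 (by positivity) (by norm_num)
    have h14 : (m : ℝ) * Zi ^ c ≤ m * (9 / 40000 * (3 * v)) :=
      mul_le_mul_of_nonneg_left h13 hm0.le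
    have h15 : (m : ℝ) * (9 / 40000 * (3 * v)) = 27 / 40000 * log m := by
      rw [hv]; field_simp; ring
    rw [h15] at h14
    linarith
  set δ : ℝ := 4 / 5 / m with hδ
  have hδ0 : 0 < δ := by positivity
  have hζ : ∀ Z : ℝ, 0 < Z → c * δ * Z ^ c ≤ Zi ^ c / g * Z → Z ≤ 1 / 10 := by
    intro Z hZ h
    by_contra hcon
    push Not at hcon
    have h1 : Z ^ c = Z ^ (c - 1) * Z := by
      rw [← rpow_add_one hZ.ne']; congr 1; ring
    rw [h1] at h
    have h2 : c * δ * Z ^ (c - 1) ≤ Zi ^ c / g := by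
      have : c * δ * Z ^ (c - 1) * Z ≤ Zi ^ c / g * Z := by linarith
      exact le_of_mul_le_mul_right this hZ
    have h3 : (1 / 100 : ℝ) ≤ Z ^ (c - 1) := by
      calc (1 / 100 : ℝ) = (1 / 10) ^ (2 : ℝ) := by norm_num
        _ ≤ (1 / 10) ^ (c - 1) :=
            rpow_le_rpow_of_exponent_ge (by norm_num) (by norm_num) (by linarith)
        _ ≤ Z ^ (c - 1) := rpow_le_rpow (by norm_num) hcon.le (by linarith)
    have h4 : c * δ * (1 / 100) ≤ Zi ^ c / g :=
      (mul_le_mul_of_nonneg_left h3 (by positivity)).trans h2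
    rw [le_div_iff₀ hg0] at h4
    have h5 : c * δ * (1 / 100) * g * m ≤ Zi ^ c * m := mul_le_mul_of_nonneg_right h4 hm0.le
    have h6 : c * δ * (1 / 100) * g * m = c * (4 / 5) * (1 / 100) * g := by
      rw [hδ]; field_simp
    rw [h6] at h5
    have h7 : 2.6 * g ≤ c * g := mul_le_mul_of_nonneg_right hc25.le hg0.le
    linarith
  have hcomp : UnitCompetitive m (alg hmn c δ) c := by
    intro I hI
    exact unit_competitive P hmn (β := 4 / 5) (by linarith) (by norm_num)
      (by rw [hδ]; field_simp) hζ (by linarith) (by norm_num) hI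
  exact csInf_le (unitR_bddBelow m) ⟨_, hcomp⟩

theorem unit_upper : ∀ᶠ m : ℕ in atTop,
    unitR m ≤ 1 + goldenRatio - 1 / 100 * (log m / m) ^ (1 / (1 + goldenRatio)) := by
  have h1 : ∀ᶠ x : ℝ in atTop, ‖log x‖ ≤ 1 * ‖x ^ (1 / 10 : ℝ)‖ :=
    (isLittleO_log_rpow_atTop (by norm_num : (0 : ℝ) < 1 / 10)).def one_pos
  have h2 := (tendsto_natCast_atTop_atTop (R := ℝ)).eventually h1
  have h3 : ∀ᶠ m : ℕ in atTop, (1000 : ℝ) ≤ m :=
    (tendsto_natCast_atTop_atTop (R := ℝ)).eventually (eventually_ge_atTop (1000 : ℝ))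
  filter_upwards [h2, h3] with m hm2 hm3
  apply unit_upper_of_large hm3
  rw [one_mul, norm_eq_abs, norm_eq_abs] at hm2
  have h4 : 0 ≤ (m : ℝ) ^ (1 / 10 : ℝ) := by positivity
  rw [abs_of_nonneg h4] at hm2
  exact (le_abs_self _).trans hm2

/-- The order of magnitude for unit running times. -/
theorem unit_theta :
    (fun m : ℕ => 1 + goldenRatio - unitR m) =Θ[atTop]
      (fun m : ℕ => (log m / m) ^ (1 / (1 + goldenRatio))) := by
  have hpos : ∀ m : ℕ, 0 ≤ (log m / m) ^ (1 / (1 + goldenRatio)) := by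
    intro m
    apply rpow_nonneg
    apply div_nonneg (log_natCast_nonneg m) (by positivity)
  constructor
  · apply IsBigO.of_bound 45
    filter_upwards [unit_upper, eventually_ge_atTop 2] with m hm hm2
    have h1 := main_unit m hm2
    have h2 := hpos m
    rw [norm_eq_abs, norm_eq_abs, abs_of_nonneg h2, abs_of_nonneg (by linarith)]
    linarith
  · apply IsBigO.of_bound 100
    filter_upwards [unit_upper] with m hm
    have h2 := hpos m
    rw [norm_eq_abs, norm_eq_abs, abs_of_nonneg h2, abs_of_nonneg (by linarith)]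
    linarith

end Pool.Agent.H78.Sched
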