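import Pool.Agent.H78.Sched.Game

namespace Pool.Agent.H78.Sched

variable {m : ℕ}

/-- Appending equal jobs. -/
theorem rc_rx_replicate (A : List (ℝ × ℝ) → Option (Fin m)) (L : List (ℝ × ℝ)) (q : ℝ) (N : ℕ) :
    ∃ s : ℕ, s ≤ N ∧ rc A (L ++ List.replicate N (1, q)) = rc A L + s ∧
      rx A (L ++ List.replicate N (1, q)) = rx A L + s * q := by
  induction N with
  | zero => exact ⟨0, le_rfl, by simp, by simp⟩
  | succ N ih =>
    obtain ⟨s, hs, h1, h2⟩ := ih
    rw [List.replicate_succ', ← List.append_assoc]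
    by_cases hd : A (L ++ List.replicate N (1, q) ++ [(1, q)]) = none
    · refine ⟨s + 1, by omega, ?_, ?_⟩
      · rw [rc_snoc, if_pos hd, h1]; ring
      · rw [rx_snoc, if_pos hd, h2]; push_cast; ring
    · refine ⟨s, by omega, ?_, ?_⟩
      · rw [rc_snoc, if_neg hd, h1]; ring
      · rw [rx_snoc, if_neg hd, h2]; ring

section
variable {A : List (ℝ × ℝ) → Option (Fin m)} {r : ℝ}

/-- One wave of equal jobs. -/
theorem wave (hA : UnitCompetitive m A r) {c : ℝ} (hc : 1 < c) (hrc : r < c) {L : List (ℝ × ℝ)}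
    (hL : UnitJobs L) {K : ℝ} (hK : 1 ≤ K) {Z : ℝ} (hZ : Z = 2 + rx A L - c) (hZ0 : 0 < Z)
    {N : ℕ} {q : ℝ} (hq : q = Z / (c * K * (rc A L + 1)))
    (hN : (c * K - 1) / (c - 1) * (rc A L + 1) ≤ N) (hlen : L.length + N ≤ m) :
    0 < q ∧ ∃ s : ℕ, s ≤ N ∧ rc A (L ++ List.replicate N (1, q)) = rc A L + s ∧
      rx A (L ++ List.replicate N (1, q)) = rx A L + s * q ∧
      (c * K - 1) / (c - 1) * (rc A L + 1) ≤ rc A L + 1 + s := by
  have hR : (0 : ℝ) < rc A L + 1 := by positivity
  have hden : 0 < c * K * (rc A L + 1) := by positivity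
  have hq0 : 0 < q := by rw [hq]; positivity
  refine ⟨hq0, ?_⟩
  obtain ⟨s, hs, h1, h2⟩ := rc_rx_replicate A L q N
  refine ⟨s, hs, h1, h2, ?_⟩
  by_cases hcase : rc A L + s + 1 ≤ N
  · have hsplit : L ++ List.replicate N ((1 : ℝ), q) =
        (L ++ List.replicate (N - (rc A L + s + 1)) ((1 : ℝ), q)) ++
          List.replicate (rc A L + s + 1) ((1 : ℝ), q) := by
      rw [List.append_assoc, ← List.replicate_add]
      congr 2
      omega
    have hfb := final_blow hA (L1 := L ++ List.replicate (N - (rc A L + s + 1)) ((1 : ℝ), q))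
      (L2 := List.replicate (rc A L + s + 1) ((1 : ℝ), q))
      (hL.append (unitJobs_replicate _ hq0)) (unitJobs_replicate _ hq0)
      (by simp only [List.length_append, List.length_replicate]; omega)
      (by rw [← hsplit, h1, List.length_replicate])
    rw [← hsplit, h2] at hfb
    have hsum : ((List.replicate (rc A L + s + 1) ((1 : ℝ), q)).map (·.2)).sum =
        (rc A L + s + 1) * q := by
      rw [List.map_replicate, List.sum_replicate, nsmul_eq_mul]
      push_cast; ring
    rw [hsum] at hfb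
    have hpos : 0 ≤ 1 + ((rc A L : ℝ) + s + 1) * q := by positivity
    have h3 : r * (1 + ((rc A L : ℝ) + s + 1) * q) ≤ c * (1 + ((rc A L : ℝ) + s + 1) * q) :=
      mul_le_mul_of_nonneg_right hrc.le hpos
    have h4 : Z + s * q ≤ c * ((rc A L + s + 1) * q) := by rw [hZ]; linarith
    have h5 : Z = c * K * (rc A L + 1) * q := by
      rw [hq]; field_simp
    have h6 : (c * K - 1) * (rc A L + 1) * q ≤ (c - 1) * (rc A L + 1 + s) * q := by
      linarith
    have h7 : (c * K - 1) * (rc A L + 1) ≤ (c - 1) * (rc A L + 1 + s) :=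
      le_of_mul_le_mul_right h6 hq0
    rw [div_mul_eq_mul_div, div_le_iff₀ (by linarith)]
    linarith
  · push Not at hcase
    have : (N : ℝ) ≤ rc A L + 1 + s := by
      have h8 : N ≤ rc A L + 1 + s := by omega
      exact_mod_cast h8
    linarith

/-- Growth of the logarithm (Bernoulli). -/
theorem log_bernoulli {x l : ℝ} (hx : 1 ≤ x) (hl : 0 ≤ l) (hl1 : l ≤ 1) :
    l * Real.log x ≤ Real.log (1 + l * (x - 1)) := by
  have h1 := _root_.rpow_one_add_le_one_add_mul_self (s := x - 1) (by linarith) hl hl1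
  have h2 : (1 + (x - 1)) ^ l = x ^ l := by ring_nf
  rw [h2] at h1
  rw [← Real.log_rpow (by linarith)]
  exact Real.log_le_log (Real.rpow_pos_of_pos (by linarith) _) h1

/-- The potential. -/
noncomputable def pot (A : List (ℝ × ℝ) → Option (Fin m)) (c : ℝ) (L : List (ℝ × ℝ)) : ℝ :=
  Real.log (2 + rx A L - c) - 1 / c * Real.log (rc A L + 1) +
    2 / c * Real.sqrt ((rc A L + 1) / m)

/-- Good states. -/
structure Good (A : List (ℝ × ℝ) → Option (Fin m)) (c P : ℝ) (L : List (ℝ × ℝ)) : Prop where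
  unit : UnitJobs L
  zpos : 0 < 2 + rx A L - c
  len : (L.length : ℝ) ≤ 7 * Real.sqrt ((rc A L + 1) * m)
  fits : L.length + 1 ≤ m
  pot : P ≤ pot A c L

theorem rc_le (A : List (ℝ × ℝ) → Option (Fin m)) (L : List (ℝ × ℝ)) : rc A L ≤ L.length := by
  unfold rc
  have := List.count_le_length (a := (none : Option (Fin m))) (l := run A L)
  rwa [length_run] at this

/-- The step from a good state to a better one. -/
theorem step (hA : UnitCompetitive m A r) (hm : 16 ≤ m) {c P : ℝ} (hc : 2 ≤ c) (hc' : c ≤ 8 / 3)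
    (hrc : r < c) {L : List (ℝ × ℝ)} (hL : Good A c P L) (hsmall : 64 * ((rc A L : ℝ) + 1) < m) :
    ∃ L', Good A c P L' ∧ rc A L + 1 ≤ rc A L' := by
  have hm0 : (0 : ℝ) < m := by have : 0 < m := by omega
                               exact_mod_cast this
  set ρ : ℝ := rc A L + 1 with hρ
  have hρ1 : 1 ≤ ρ := by rw [hρ]; linarith [(Nat.cast_nonneg (rc A L) : (0 : ℝ) ≤ (rc A L : ℝ))]
  have hρ0 : 0 < ρ := by linarith
  set s : ℝ := Real.sqrt (ρ / m) with hs
  have hs0 : 0 < s := Real.sqrt_pos.2 (by positivity)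
  have hs2 : s ^ 2 = ρ / m := Real.sq_sqrt (by positivity)
  have hs1 : s ≤ 1 := by
    rw [hs, Real.sqrt_le_one]
    rw [div_le_one hm0]; linarith
  set Z : ℝ := 2 + rx A L - c with hZ
  have hZ0 : 0 < Z := hL.zpos
  set g : ℝ := (c * (1 + s) - 1) / (c - 1) with hg
  have hg1 : 1 + 8 / 5 * s ≤ g := by
    rw [hg, le_div_iff₀ (by linarith)]
    have := mul_le_mul_of_nonneg_left hc' hs0.le
    linarith
  have hg2 : g ≤ 1 + 2 * s := by
    rw [hg, div_le_iff₀ (by linarith)]
    have := mul_le_mul_of_nonneg_left hc hs0.le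
    linarith
  set N : ℕ := ⌈g * ρ⌉₊ with hN
  have hN1 : g * ρ ≤ N := Nat.le_ceil _
  have hgρ : 0 ≤ g * ρ := mul_nonneg (by linarith) hρ0.le
  have hN2 : (N : ℝ) < g * ρ + 1 := Nat.ceil_lt_add_one hgρ
  have hN3 : (N : ℝ) ≤ 4 * ρ := by
    have : g * ρ ≤ 3 * ρ := mul_le_mul_of_nonneg_right (by linarith) hρ0.le
    linarith
  have hsq64 : Real.sqrt (ρ * m) ≤ m / 8 := by
    rw [Real.sqrt_le_left (by positivity)]
    have : ρ * m ≤ (m / 64) * m := mul_le_mul_of_nonneg_right (by linarith) hm0.le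
    linarith
  have hlenN : (L.length : ℝ) + N + 1 ≤ m := by
    have h1 := hL.len
    have hm16 : (16 : ℝ) ≤ m := by exact_mod_cast hm
    rw [← hρ] at h1
    linarith
  have hlenN' : L.length + N + 1 ≤ m := by exact_mod_cast hlenN
  obtain ⟨hq0, t, ht, h1, h2, h3⟩ := wave hA (by linarith : (1 : ℝ) < c) hrc hL.unit
    (K := 1 + s) (by linarith) hZ hZ0 (N := N) (q := Z / (c * (1 + s) * (rc A L + 1))) rfl
    (by rw [← hρ]; exact hN1) (by omega)
  rw [← hρ, ← hg] at h3
  set q : ℝ := Z / (c * (1 + s) * (rc A L + 1)) with hq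
  set L' : List (ℝ × ℝ) := L ++ List.replicate N (1, q) with hL'
  have hrc' : (rc A L' : ℝ) + 1 = ρ + t := by rw [h1]; push_cast; ring
  have hrx' : 2 + rx A L' - c = Z + t * q := by rw [h2, hZ]; ring
  set x : ℝ := (ρ + t) / ρ with hx
  have hxg : g ≤ x := by rw [hx, le_div_iff₀ hρ0]; exact h3
  have hx1 : 1 ≤ x := by linarith
  have hρt : ρ + t = x * ρ := by rw [hx]; field_simp
  have hZq : Z + t * q = Z * (1 + 1 / (c * (1 + s)) * (x - 1)) := by
    rw [hx, hq, ← hρ]
    field_simp
    ring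
  have ht1 : 1 ≤ t := by
    by_contra hcon
    have : t = 0 := by omega
    rw [this] at h3
    simp only [Nat.cast_zero, add_zero] at h3
    have h10 : 1 * ρ < g * ρ := mul_lt_mul_of_pos_right (by linarith) hρ0
    linarith
  refine ⟨L', ⟨?_, ?_, ?_, ?_, ?_⟩, by rw [h1]; omega⟩
  · exact hL.unit.append (unitJobs_replicate _ hq0)
  · rw [hrx']; positivity
  · -- number of jobs
    rw [hrc', hL', List.length_append, List.length_replicate]
    push_cast
    have h4 := hL.len
    rw [← hρ] at h4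
    have h5 : Real.sqrt ((ρ + t) * m) = Real.sqrt x * Real.sqrt (ρ * m) := by
      rw [← Real.sqrt_mul (by linarith), hρt]
      ring_nf
    have h6 : 1 + 3 / 5 * s ≤ Real.sqrt x := by
      apply Real.le_sqrt_of_sq_le
      have : s * s ≤ s * 1 := mul_le_mul_of_nonneg_left hs1 hs0.le
      linarith
    have h7 : s * Real.sqrt (ρ * m) = ρ := by
      rw [hs, ← Real.sqrt_mul (by positivity)]
      rw [show ρ / m * (ρ * m) = ρ ^ 2 by field_simp]
      exact Real.sqrt_sq hρ0.le
    rw [h5]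
    have h8 : 0 ≤ Real.sqrt (ρ * m) := Real.sqrt_nonneg _
    have h9 : (1 + 3 / 5 * s) * Real.sqrt (ρ * m) ≤ Real.sqrt x * Real.sqrt (ρ * m) :=
      mul_le_mul_of_nonneg_right h6 h8
    linarith
  · rw [hL', List.length_append, List.length_replicate]; omega
  · refine hL.pot.trans ?_
    unfold Sched.pot
    rw [hrx', hrc', ← hρ, ← hZ, hZq, hρt]
    have hc0 : 0 < c := by linarith
    have hl0 : 0 ≤ 1 / (c * (1 + s)) := by positivity
    have hl1 : 1 / (c * (1 + s)) ≤ 1 := by
      rw [div_le_one (by positivity)]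
      have := mul_nonneg hc0.le hs0.le
      linarith
    have hb := log_bernoulli hx1 hl0 hl1
    have hpos : 0 < 1 + 1 / (c * (1 + s)) * (x - 1) := by
      have : 0 ≤ 1 / (c * (1 + s)) * (x - 1) := mul_nonneg hl0 (by linarith)
      linarith
    rw [Real.log_mul hZ0.ne' hpos.ne', Real.log_mul (by linarith) hρ0.ne']
    have hsx : Real.sqrt (x * ρ / m) = Real.sqrt x * s := by
      rw [hs, ← Real.sqrt_mul (by linarith)]
      congr 1; ring
    rw [hsx]
    have hlog : Real.log x ≤ 2 * (Real.sqrt x - 1) := by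
      have h10 : Real.log x = 2 * Real.log (Real.sqrt x) := by
        rw [Real.log_sqrt (by linarith)]; ring
      rw [h10]
      have := Real.log_le_sub_one_of_pos (Real.sqrt_pos.2 (by linarith : 0 < x))
      linarith
    have hlx : 0 ≤ Real.log x := Real.log_nonneg hx1
    -- main inequality
    have hkey : 1 / c * Real.log x ≤ 1 / (c * (1 + s)) * Real.log x +
        2 / c * s * (Real.sqrt x - 1) := by
      have e1 : 1 / (c * (1 + s)) = 1 / c - s / (c * (1 + s)) := by
        field_simp; ring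
      rw [e1]
      have e2 : s / (c * (1 + s)) * Real.log x ≤ 2 / c * s * (Real.sqrt x - 1) := by
        have e3 : s / (c * (1 + s)) ≤ s / c := by
          apply div_le_div_of_nonneg_left hs0.le hc0
          have := mul_nonneg hc0.le hs0.le
          linarith
        calc s / (c * (1 + s)) * Real.log x ≤ s / c * Real.log x :=
              mul_le_mul_of_nonneg_right e3 hlx
          _ ≤ s / c * (2 * (Real.sqrt x - 1)) :=
              mul_le_mul_of_nonneg_left hlog (by positivity)
          _ = 2 / c * s * (Real.sqrt x - 1) := by ring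
      linarith
    linarith

/-- From a good state one reaches a good state with many rejections. -/
theorem reach (hA : UnitCompetitive m A r) (hm : 16 ≤ m) {c P : ℝ} (hc : 2 ≤ c) (hc' : c ≤ 8 / 3)
    (hrc : r < c) {L : List (ℝ × ℝ)} (hL : Good A c P L) :
    ∃ L', Good A c P L' ∧ (m : ℝ) ≤ 64 * ((rc A L' : ℝ) + 1) := by
  by_contra hcon
  push Not at hcon
  have h : ∀ k : ℕ, ∃ L', Good A c P L' ∧ k ≤ rc A L' := by
    intro k
    induction k with
    | zero => exact ⟨L, hL, Nat.zero_le _⟩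
    | succ k ih =>
      obtain ⟨L1, hL1, hk⟩ := ih
      obtain ⟨L2, hL2, hk2⟩ := step hA hm hc hc' hrc hL1 (hcon L1 hL1)
      exact ⟨L2, hL2, by omega⟩
  obtain ⟨L', hL', hk⟩ := h (m + 1)
  have := rc_le A L'
  have := hL'.fits
  omega

/-- The main estimate. -/
theorem core (hA : UnitCompetitive m A r) (hm : 16 ≤ m) {c P : ℝ} (hc : 2 ≤ c) (hc' : c ≤ 8 / 3)
    (hrc : r < c) {L : List (ℝ × ℝ)} (hL : Good A c P L) :
    P ≤ 1 / c * (2 - Real.log (m / 64)) := by
  obtain ⟨L', hL', hbig⟩ := reach hA hm hc hc' hrc hL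
  have hm0 : (0 : ℝ) < m := by have : 0 < m := by omega
                               exact_mod_cast this
  have h1 := one_more hA hL'.unit hL'.fits
  have hZ1 : 2 + rx A L' - c < 1 := by linarith
  have hlogZ : Real.log (2 + rx A L' - c) ≤ 0 := Real.log_nonpos hL'.zpos.le hZ1.le
  have hle : (rc A L' : ℝ) + 1 ≤ m := by
    have h2 := rc_le A L'
    have h3 := hL'.fits
    have : rc A L' + 1 ≤ m := by omega
    exact_mod_cast this
  have hsq : Real.sqrt ((rc A L' + 1) / m) ≤ 1 := by
    rw [Real.sqrt_le_one, div_le_one hm0]; exact hle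
  have hlog : Real.log (m / 64) ≤ Real.log (rc A L' + 1) := by
    apply Real.log_le_log (by positivity)
    linarith
  have hp := hL'.pot
  unfold Sched.pot at hp
  have hc0 : 0 < c := by linarith
  have h4 : 1 / c * Real.log (m / 64) ≤ 1 / c * Real.log (rc A L' + 1) :=
    mul_le_mul_of_nonneg_left hlog (by positivity)
  have h5 : 2 / c * Real.sqrt ((rc A L' + 1) / m) ≤ 2 / c * 1 :=
    mul_le_mul_of_nonneg_left hsq (by positivity)
  have h6 : 2 / c * 1 = 1 / c * 2 := by ring
  have h7 : 1 / c * (2 - Real.log (m / 64)) = 1 / c * 2 - 1 / c * Real.log (m / 64) := by ring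
  rw [h7]
  linarith

end

end Pool.Agent.H78.Sched
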